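import Pool.Agent.Lib.MP_c03ca8_nt.N2.Cont
import Pool.Agent.Lib.MP_c03ca8_nt.N.Union

/-! The union bound over containers. -/

open Finset Real

namespace Pool.Agent.Lib.MP_c03ca8_nt.N

theorem bad2_C {L : ℝ} {H w s c : ℕ} (hL : 2 ≤ L) (hH : (H : ℝ) ≤ L ^ 2)
    (hw : 512 * log L ≤ w) (hw2 : 2048 ≤ w) (hc : c ≤ (H + 1) ^ (1026 * s * w)) :
    (c : ℝ) ≤ 3 ^ (s * w ^ 3) := by
  have h0 : 0 < L := by linarith
  have hl : 0 ≤ log L := log_nonneg (by linarith)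
  have h1 : (H : ℝ) + 1 ≤ exp 1 ^ w := by
    have h3 : (H : ℝ) + 1 ≤ L ^ 3 := by nlinarith
    refine h3.trans ?_
    rw [← exp_nat_mul, ← exp_log (pow_pos h0 3), log_pow]
    exact exp_le_exp.2 (by push_cast; linarith)
  have h2 : exp 1 ≤ 3 := (exp_one_lt_d9.trans (by norm_num)).le
  have h4 : (H : ℝ) + 1 ≤ 3 ^ w := h1.trans (pow_le_pow_left₀ (exp_pos 1).le h2 _)
  have h5 : (c : ℝ) ≤ ((H : ℝ) + 1) ^ (1026 * s * w) := by exact_mod_cast hc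
  refine h5.trans ((pow_le_pow_left₀ (by positivity) h4 _).trans ?_)
  rw [← pow_mul]
  refine pow_le_pow_right₀ (by norm_num) ?_
  calc w * (1026 * s * w) = s * w ^ 2 * 1026 := by ring
    _ ≤ s * w ^ 2 * w := Nat.mul_le_mul_left _ (by omega)
    _ = s * w ^ 3 := by ring

theorem bad2_pow {s t : ℕ} (hs : 1 ≤ s) (ht : 6 * s ≤ t) : 3 * s ^ 4 ≤ 2 ^ t := by
  have h1 : s ≤ 2 ^ s := Nat.lt_two_pow_self.le
  calc 3 * s ^ 4 ≤ 2 ^ (2 * s) * (2 ^ s) ^ 4 :=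
        Nat.mul_le_mul ((by norm_num : 3 ≤ 2 ^ 2).trans
          (Nat.pow_le_pow_right (by norm_num) (by omega))) (Nat.pow_le_pow_left h1 4)
    _ = 2 ^ (6 * s) := by rw [← pow_mul, ← pow_add]; ring_nf
    _ ≤ 2 ^ t := Nat.pow_le_pow_right (by norm_num) ht

theorem bad2 : ∃ C : ℝ, 1 ≤ C ∧ ∀ (L : ℝ) (v w r M N : ℕ) (y0 : ℤ),
    8192 ≤ w → w ^ 27 ≤ r → (v : ℝ) ^ 2 ≤ L → C * log L ≤ w → exp (4 * L) ≤ N →
    w ^ 10 * v ^ 2 ≤ M * r ^ 2 → M * r ^ 2 ≤ 2 * (w ^ 10 * v ^ 2) →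
    ∀ I ⊆ Ioc y0 (y0 + N),
      (∀ y ∈ I, ∃ A ⊆ Ico 0 ((M * w ^ 6 * (w ^ 10 * v ^ 2 * r) : ℕ) : ℤ),
        WS2 (w ^ 10 * v ^ 2 * r) A ∧ Reg (w ^ 10 * v ^ 2 * r) (w ^ 8 * r) A ∧
        A.card = M * (w ^ 8 * r) ∧
        ∀ h ∈ A, exp L < ((y + h : ℤ) : ℝ) ∧ Prime (y + h)) →
      I.card * (M * w ^ 6 * (w ^ 10 * v ^ 2 * r)) ≤ N := by
  obtain ⟨C0, hC0, hs2⟩ := sieve2
  refine ⟨max C0 512, hC0.trans (le_max_left _ _), ?_⟩
  intro L v w r M N y0 hw hr hL hCw hN hM1 hM2 I hI hG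
  rcases Nat.eq_zero_or_pos v with rfl | hv0
  · simp
  choose! G hG1 hG2 hG3 hG4 hG5 using hG
  have hw1 : 1 ≤ w := by omega
  have hp : ∀ a b : ℕ, a ≤ b → w ^ a ≤ w ^ b := fun a b h => Nat.pow_le_pow_right hw1 h
  have hq : ∀ a c : ℕ, c ≤ 8192 → a ≤ 26 → c * w ^ a ≤ r := fun a c hc ha => by
    refine le_trans ?_ ((hp (a + 1) 27 (by omega)).trans hr)
    rw [pow_succ']
    exact Nat.mul_le_mul_right _ (by omega)
  have hr0 : 0 < r := (pow_pos hw1 27).trans_le hr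
  have hg0 : 0 < w ^ 10 * v ^ 2 := by positivity
  have hM0 : 0 < M := Nat.pos_of_ne_zero fun h => by
    rw [h, zero_mul] at hM1
    omega
  have hv2 : 2 ≤ v ^ 2 := by
    have h1 : r ≤ M * r ^ 2 :=
      (Nat.le_self_pow (by norm_num) r).trans (Nat.le_mul_of_pos_left _ hM0)
    have h2 := hq 10 4 (by norm_num) (by norm_num)
    refine Nat.le_of_mul_le_mul_left (c := 2 * w ^ 10) ?_ (by positivity)
    calc 2 * w ^ 10 * 2 = 4 * w ^ 10 := by ring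
      _ ≤ 2 * (w ^ 10 * v ^ 2) := h2.trans (h1.trans hM2)
      _ = 2 * w ^ 10 * v ^ 2 := by ring
  have hwR : (8192 : ℝ) ≤ w := by exact_mod_cast hw
  have hL2 : 2 ≤ L := le_trans (by exact_mod_cast hv2) hL
  have hl : 0 ≤ log L := log_nonneg (by linarith)
  have hw0 : C0 * log L ≤ w := (mul_le_mul_of_nonneg_right (le_max_left _ _) hl).trans hCw
  have hw5 : 512 * log L ≤ w := (mul_le_mul_of_nonneg_right (le_max_right _ _) hl).trans hCw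
  have hH : ((M * w ^ 6 * (w ^ 10 * v ^ 2 * r) : ℕ) : ℝ) ≤ L ^ 2 := by
    have h1 : M * w ^ 6 * (w ^ 10 * v ^ 2 * r) ≤ (v ^ 2) ^ 2 := by
      refine Nat.le_of_mul_le_mul_left (c := r) ?_ hr0
      calc r * (M * w ^ 6 * (w ^ 10 * v ^ 2 * r)) = M * r ^ 2 * (w ^ 16 * v ^ 2) := by ring
        _ ≤ 2 * (w ^ 10 * v ^ 2) * (w ^ 16 * v ^ 2) := Nat.mul_le_mul_right _ hM2
        _ = 2 * w ^ 26 * (v ^ 2) ^ 2 := by ring
        _ ≤ r * (v ^ 2) ^ 2 := Nat.mul_le_mul_right _ (hq 26 2 (by norm_num) le_rfl)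
    have h2 : ((M * w ^ 6 * (w ^ 10 * v ^ 2 * r) : ℕ) : ℝ) ≤ ((v : ℝ) ^ 2) ^ 2 := by
      exact_mod_cast h1
    exact h2.trans (pow_le_pow_left₀ (by positivity) hL 2)
  have hk : 32 ≤ w ^ 8 := le_trans (by omega) (by simpa using hp 1 8 (by norm_num) : w ≤ w ^ 8)
  have hn : 1 ≤ M * w ^ 6 := Nat.mul_pos hM0 (by positivity)
  obtain ⟨C, hc, hCU, hCA⟩ := cont2 (g := w ^ 10 * v ^ 2 * r) (k := w ^ 8) (r := r) (M := M)
    (n := M * w ^ 6) (J := w) (by positivity) hk ((hp 8 27 (by norm_num)).trans hr)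
    ((Nat.mul_le_mul_right r hM1).trans_eq (by ring))
    (Nat.mul_le_mul_right r ((hp 8 10 (by norm_num)).trans
      (Nat.le_mul_of_pos_right _ (by positivity)))) hn (badle_J hL2 hH hw5)
  obtain ⟨s, hs⟩ : ∃ s, s = M * r := ⟨_, rfl⟩
  have hrs : r ≤ s := hs ▸ Nat.le_mul_of_pos_left _ hM0
  have hns : M * w ^ 6 ≤ s * w := by
    rw [hs]
    exact (Nat.mul_le_mul_left _ ((hp 6 27 (by norm_num)).trans hr)).trans
      (Nat.le_mul_of_pos_right _ hw1)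
  have hA : M * (w ^ 8 * r) = w ^ 8 * s := by rw [hs]; ring
  have hHs : M * w ^ 6 * (w ^ 10 * v ^ 2 * r) ≤ s ^ 4 := by
    have h1 : v ^ 2 ≤ s ^ 2 := by
      refine ((Nat.le_mul_of_pos_left _ (by positivity)).trans hM1).trans ?_
      rw [hs, mul_pow]
      exact Nat.mul_le_mul_right _ (Nat.le_self_pow (by norm_num) M)
    calc M * w ^ 6 * (w ^ 10 * v ^ 2 * r) = s * w ^ 16 * v ^ 2 := by rw [hs]; ring
      _ ≤ s * s * s ^ 2 := Nat.mul_le_mul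
          (Nat.mul_le_mul_left _ (((hp 16 27 (by norm_num)).trans hr).trans hrs)) h1
      _ = s ^ 4 := by ring
  have hH2 : 2 ≤ M * w ^ 6 * (w ^ 10 * v ^ 2 * r) :=
    ((hv2.trans (Nat.le_mul_of_pos_left _ (by positivity))).trans
      (Nat.le_mul_of_pos_right _ hr0)).trans (Nat.le_mul_of_pos_left _ hn)
  have htL : 2 * ((s * w ^ 3 : ℕ) : ℝ) * (w : ℝ) ^ 2 ≤ L := by
    have h2 : 2 * (s * w ^ 3) * w ^ 2 ≤ v ^ 2 := by
      refine Nat.le_of_mul_le_mul_left (c := r) ?_ hr0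
      calc r * (2 * (s * w ^ 3) * w ^ 2) = M * r ^ 2 * (2 * w ^ 5) := by rw [hs]; ring
        _ ≤ 2 * (w ^ 10 * v ^ 2) * (2 * w ^ 5) := Nat.mul_le_mul_right _ hM2
        _ = 4 * w ^ 15 * v ^ 2 := by ring
        _ ≤ r * v ^ 2 := Nat.mul_le_mul_right _ (hq 15 4 (by norm_num) (by norm_num))
    exact le_trans (by exact_mod_cast h2) hL
  rw [← hs] at hc hCA
  rw [hA] at hCA hG4
  generalize M * w ^ 6 * (w ^ 10 * v ^ 2 * r) = H at *
  have hc2 : C.card ≤ (H + 1) ^ (1026 * s * w) := by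
    have h1 : 2 ^ (M * w ^ 6) ≤ (H + 1) ^ (s * w) :=
      (Nat.pow_le_pow_right (by norm_num) hns).trans (Nat.pow_le_pow_left (by omega) _)
    refine (hc.trans (Nat.mul_le_mul_right _ h1)).trans_eq ?_
    rw [← pow_add]
    congr 1
    ring
  have hm : 2 * (528 * s * w + s * w ^ 3) ≤ w ^ 8 * s := by
    have h1 : w ≤ w ^ 7 := by simpa using hp 1 7 (by norm_num)
    have h2 : w ^ 3 ≤ w ^ 7 := hp 3 7 (by norm_num)
    have h3 : 8192 * w ^ 7 ≤ w ^ 8 := by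
      rw [show w ^ 8 = w * w ^ 7 by ring]; exact Nat.mul_le_mul_right _ hw
    calc 2 * (528 * s * w + s * w ^ 3) = (1056 * w + 2 * w ^ 3) * s := by ring
      _ ≤ w ^ 8 * s := Nat.mul_le_mul_right _ (by omega)
  have ht1 : 1 ≤ s * w ^ 3 := Nat.mul_pos (by omega) (by positivity)
  have hd := double (I := I) (C := C) (G := G) (m := w ^ 8 * s - 528 * s * w)
    (R := 128 * v ^ 2 * w ^ 2) (t := s * w ^ 3)
    (β := 3 * N * (2 * ((s * w ^ 3 : ℕ) : ℝ) * (w : ℝ) ^ 2 / L) ^ (s * w ^ 3))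
    (fun U hU => by
      have h := (hCU U hU).2
      rw [show 128 * (w ^ 10 * v ^ 2 * r) = w ^ 8 * r * (128 * v ^ 2 * w ^ 2) by ring] at h
      exact Nat.le_of_mul_le_mul_left h (by positivity))
    (fun y hy => by
      obtain ⟨U, hU, h⟩ := hCA (G y) (hG1 y hy) (hG2 y hy) (hG3 y hy) (hG4 y hy)
      exact ⟨U, hU, by omega⟩)
    (fun U hU T hT hTc => by
      have h := hs2 L w H N T y0 (hT.trans (hCU U hU).1) (by omega) hH2 hH hL2 hw0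
        (by rw [hTc]; exact htL)
        hN (I.filter fun y => T ⊆ G y) ((filter_subset _ _).trans hI) (fun n hn h hh =>
          hG5 n (mem_filter.1 hn).1 h ((mem_filter.1 hn).2 hh))
      rwa [hTc] at h)
    (by positivity) (by omega)
  have hM : w ^ 8 * s ≤ 2 * (w ^ 8 * s - 528 * s * w + 1 - s * w ^ 3) := by omega
  obtain ⟨Q, hQ⟩ : ∃ Q, Q = w ^ 8 * s - 528 * s * w + 1 - s * w ^ 3 := ⟨_, rfl⟩
  rw [← hQ] at hd hM
  have hMR : (w : ℝ) ^ 8 * s ≤ 2 * Q := by exact_mod_cast hM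
  have hsR : (0 : ℝ) < s := by exact_mod_cast (by omega : 0 < s)
  have hws : 0 < (w : ℝ) ^ 8 * s := by positivity
  have hf := badle_fin (by linarith) (Nat.cast_nonneg _) (by positivity)
    (Nat.cast_nonneg _) (bad2_C hL2 hH hw5 (by omega) hc2) hd (by
      rw [← mul_div_assoc, div_le_iff₀ (by linarith)]
      push_cast
      have h1 : (0 : ℝ) ≤ w ^ 7 * s := by positivity
      calc 6 * (128 * (v : ℝ) ^ 2 * w ^ 2) * (2 * (s * w ^ 3) * w ^ 2)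
          = 1536 * (w ^ 7 * s) * v ^ 2 := by ring
        _ ≤ Q * L := by
          refine mul_le_mul ?_ hL (by positivity) (Nat.cast_nonneg _)
          have h2 : (w : ℝ) ^ 8 * s = w * (w ^ 7 * s) := by ring
          nlinarith)
  have h3 : 3 * s ^ 4 ≤ 2 ^ (s * w ^ 3) := by
    refine bad2_pow (by omega) ?_
    rw [mul_comm 6 s]
    exact Nat.mul_le_mul_left _ (le_trans (by omega) (Nat.le_self_pow (by norm_num) w))
  have h4 : I.card * 2 ^ (s * w ^ 3) ≤ 3 * N := by exact_mod_cast hf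
  have h5 := Nat.mul_le_mul_left I.card ((Nat.mul_le_mul_left 3 hHs).trans h3)
  have h6 : I.card * (3 * H) = 3 * (I.card * H) := by ring
  omega

end Pool.Agent.Lib.MP_c03ca8_nt.N
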