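import Pool.Agent.Lib.MP_c03ca8_nt.N2.Defs

/-! Removing the large blocks; choosing a regular subset. -/

open Finset

namespace Pool.Agent.Lib.MP_c03ca8_nt.N

theorem trim_reg {g m : ℕ} {A : Finset ℤ} (hreg : Reg g m A) (j : ℤ) : (blk g A j).card ≤ m := by
  rcases (blk g A j).eq_empty_or_nonempty with h | ⟨a, ha⟩
  · simp [h]
  · obtain ⟨h1, rfl⟩ := mem_filter.1 ha
    exact (hreg a h1).le

theorem trim_loss {g k r M : ℕ} {A U : Finset ℤ} (hreg : Reg g (k * r) A) :
    (A ∩ U).card ≤ (A ∩ trim g k M U).card + 16 * (M * r) := by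
  rcases U.eq_empty_or_nonempty with rfl | hU
  · simp
  set Bad : Finset ℤ := (U.image fun x => x / (g : ℤ)).filter
    fun j => k * U.card < 16 * M * (blk g U j).card with hBad
  have h1 : Bad.card * (k * U.card) ≤ 16 * M * U.card := by
    rw [← smul_eq_mul, ← sum_const]
    refine (sum_le_sum fun j hj => (mem_filter.1 hj).2.le).trans ?_
    rw [← mul_sum]
    refine Nat.mul_le_mul_left _ ?_
    rw [card_eq_sum_card_image (fun x => x / (g : ℤ)) U]
    exact sum_le_sum_of_subset (filter_subset _ _)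
  have h2 : Bad.card * k ≤ 16 * M :=
    Nat.le_of_mul_le_mul_right (by rwa [mul_assoc]) hU.card_pos
  have h3 : A ∩ U ⊆ (A ∩ trim g k M U) ∪ Bad.biUnion (blk g A) := by
    intro x hx
    obtain ⟨hA, hx⟩ := mem_inter.1 hx
    by_cases hc : 16 * M * (blk g U (x / g)).card ≤ k * U.card
    · exact mem_union_left _ (mem_inter.2 ⟨hA, mem_filter.2 ⟨hx, hc⟩⟩)
    · exact mem_union_right _ (mem_biUnion.2 ⟨x / g,
        mem_filter.2 ⟨mem_image_of_mem _ hx, not_le.1 hc⟩, mem_filter.2 ⟨hA, rfl⟩⟩)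
  refine ((card_le_card h3).trans (card_union_le _ _)).trans (Nat.add_le_add_left ?_ _)
  refine (card_biUnion_le_card_mul _ _ _ fun j _ => trim_reg hreg j).trans ?_
  rw [← mul_assoc, ← mul_assoc]
  exact Nat.mul_le_mul_right _ h2

theorem trim_blk {g k M : ℕ} {U : Finset ℤ} (h : U.card ≤ 2 * (trim g k M U).card) (j : ℤ) :
    8 * M * (blk g (trim g k M U) j).card ≤ k * (trim g k M U).card := by
  rcases (blk g (trim g k M U) j).eq_empty_or_nonempty with h0 | ⟨a, ha⟩
  · simp [h0]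
  obtain ⟨h1, rfl⟩ := mem_filter.1 ha
  have h2 := (mem_filter.1 h1).2
  have h3 : (blk g (trim g k M U) (a / g)).card ≤ (blk g U (a / g)).card :=
    card_le_card (filter_subset_filter _ (filter_subset _ _))
  have h4 := Nat.mul_le_mul_left (16 * M) h3
  have h5 := Nat.mul_le_mul_left k h
  nlinarith

theorem pick {g m M : ℕ} (G J : Finset ℤ) (hJ : M ≤ J.card)
    (h : ∀ j ∈ J, m ≤ (blk g G j).card) : ∃ A ⊆ G, Reg g m A ∧ A.card = M * m := by
  obtain ⟨J2, j1, j2⟩ := exists_subset_card_eq hJ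
  have : ∀ j, ∃ T ⊆ blk g G j, j ∈ J2 → T.card = m := fun j => by
    by_cases hj : j ∈ J2
    · obtain ⟨T, t1, t2⟩ := exists_subset_card_eq (h j (j1 hj))
      exact ⟨T, t1, fun _ => t2⟩
    · exact ⟨∅, empty_subset _, fun c => (hj c).elim⟩
  choose T t1 t2 using this
  have t3 : ∀ j, ∀ x ∈ T j, x / g = j := fun j x hx => (mem_filter.1 (t1 j hx)).2
  refine ⟨J2.biUnion T, biUnion_subset.2 fun j _ => (t1 j).trans (filter_subset _ _),
    fun a ha => ?_, ?_⟩
  · obtain ⟨j, hj, ha⟩ := mem_biUnion.1 ha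
    rw [t3 j a ha, ← t2 j hj]
    congr 1
    ext x
    refine ⟨fun hx => ?_, fun hx => mem_filter.2 ⟨mem_biUnion.2 ⟨j, hj, hx⟩, t3 j x hx⟩⟩
    obtain ⟨x1, x2⟩ := mem_filter.1 hx
    obtain ⟨i, -, x3⟩ := mem_biUnion.1 x1
    rwa [← x2, t3 i x x3]
  · rw [card_biUnion fun i _ j _ hij => disjoint_left.2 fun x a b =>
      hij ((t3 i x a).symm.trans (t3 j x b)), sum_congr rfl t2, sum_const, j2, smul_eq_mul]

theorem trim_card {g : ℕ} (hg : 0 < g) (G : Finset ℤ) (j : ℤ) : (blk g G j).card ≤ g := by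
  have hg' : (0 : ℤ) < g := by exact_mod_cast hg
  have h : blk g G j ⊆ Ico (g * j) (g * j + g) := fun x hx => by
    have h1 := Int.emod_add_mul_ediv x g
    have h3 := Int.emod_lt_of_pos x hg'
    have h4 := Int.emod_nonneg x hg'.ne'
    rw [(mem_filter.1 hx).2] at h1
    exact mem_Ico.2 ⟨by omega, by omega⟩
  simpa using card_le_card h

theorem win {g n m M R : ℕ} (hg : 0 < g) {G : Finset ℤ} (hG : G ⊆ Ico 0 ((n * g : ℕ) : ℤ))
    (h : ((Ico 0 (n : ℤ)).filter fun j => m ≤ (blk g G j).card).card < M) :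
    G.card ≤ n * m + M * R +
      g * ((Ico 0 (n : ℤ)).filter fun j => R ≤ (blk g G j).card).card := by
  have hg' : (0 : ℤ) < g := by exact_mod_cast hg
  have h1 : G.card = ∑ j ∈ Ico 0 (n : ℤ), (blk g G j).card := by
    refine card_eq_sum_card_fiberwise (f := fun x => x / (g : ℤ)) fun x hx => ?_
    obtain ⟨x1, x2⟩ := mem_Ico.1 (hG hx)
    exact mem_coe.2 (mem_Ico.2 ⟨Int.ediv_nonneg x1 hg'.le,
      Int.ediv_lt_of_lt_mul hg' (by exact_mod_cast x2)⟩)
  have h2 : ∀ j ∈ Ico 0 (n : ℤ), (blk g G j).card ≤ m + (if m ≤ (blk g G j).card then R else 0) +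
      (if R ≤ (blk g G j).card then g else 0) := fun j _ => by
    have := trim_card hg G j
    split_ifs <;> omega
  rw [h1]
  refine (sum_le_sum h2).trans ?_
  rw [sum_add_distrib, sum_add_distrib, ← sum_filter, ← sum_filter, sum_const, sum_const,
    sum_const, smul_eq_mul, smul_eq_mul, smul_eq_mul, mul_comm g, Int.card_Ico, sub_zero,
    Int.toNat_natCast]
  exact Nat.add_le_add_right (Nat.add_le_add_left (Nat.mul_le_mul_right _ h.le) _) _

end Pool.Agent.Lib.MP_c03ca8_nt.N
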