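import Pool.Agent.Lib.MP_c03ca8_nt.N2.Phase
import Pool.Agent.Lib.MP_c03ca8_nt.N2.Trim

/-! Containers for sets without a parallelogram with a short side. -/

open Finset

namespace Pool.Agent.Lib.MP_c03ca8_nt.N

theorem cont2_trim_subset (g k M : ℕ) (U : Finset ℤ) : trim g k M U ⊆ U := filter_subset _ _

theorem cont2_ind {g k r M n : ℕ} (hg : 0 < g) (hk : 32 ≤ k) (hkr : k ≤ r) (hP : g ≤ M * r ^ 3)
    (hn : 1 ≤ n) (j : ℕ) :
    ∃ C : Finset (Finset ℤ), C.card ≤ 2 ^ n * (n * g + 1) ^ (1025 * (M * r) * j) ∧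
      (∀ U ∈ C, U ⊆ Ico 0 ((n * g : ℕ) : ℤ)) ∧
      ∀ A ⊆ Ico 0 ((n * g : ℕ) : ℤ), WS2 g A → Reg g (k * r) A → A.card = M * (k * r) →
        ∃ U ∈ C, Cov g A U ∧ M * (k * r) ≤ (A ∩ U).card + 528 * (M * r) * j ∧
          (k * r * U.card < 128 * g ∨ 256 ^ j * U.card ≤ 255 ^ j * (n * g)) := by
  have hΩ : (Ico (0 : ℤ) ((n * g : ℕ) : ℤ)).card = n * g := by
    rw [Int.card_Ico, sub_zero, Int.toNat_natCast]
  have hM1 : 1 ≤ M := by
    rcases Nat.eq_zero_or_pos M with h | h
    · rw [h] at hP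
      omega
    · exact h
  have hs : 2 ≤ M * r := by
    have := Nat.mul_le_mul hM1 (hk.trans hkr)
    omega
  have hH : 1 ≤ n * g := Nat.mul_pos hn hg
  induction j with
  | zero =>
    refine ⟨(Ico (0 : ℤ) (n : ℤ)).powerset.image fun B =>
      (Ico (0 : ℤ) ((n * g : ℕ) : ℤ)).filter fun x => x / g ∈ B, ?_, ?_, ?_⟩
    · refine card_image_le.trans ?_
      rw [card_powerset, Int.card_Ico]
      simp
    · intro U hU
      obtain ⟨B, -, rfl⟩ := mem_image.1 hU
      exact filter_subset _ _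
    · intro A hA _ _ hm
      have hg' : (0 : ℤ) < g := by exact_mod_cast hg
      refine ⟨(Ico (0 : ℤ) ((n * g : ℕ) : ℤ)).filter fun x => x / g ∈ A.image (fun a => a / (g : ℤ)),
        mem_image.2 ⟨A.image (fun a => a / (g : ℤ)), mem_powerset.2 fun y hy => ?_, rfl⟩,
        fun u hu => ?_, ?_, Or.inr ?_⟩
      · obtain ⟨a, ha, rfl⟩ := mem_image.1 hy
        have h1 := mem_Ico.1 (hA ha)
        refine mem_Ico.2 ⟨Int.ediv_nonneg h1.1 hg'.le, Int.ediv_lt_of_lt_mul hg' ?_⟩
        have h2 := h1.2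
        push_cast at h2
        exact h2
      · exact mem_image.1 (mem_filter.1 hu).2
      · rw [inter_eq_left.2 fun a ha => mem_filter.2 ⟨hA ha, mem_image_of_mem _ ha⟩, hm]
        omega
      · rw [pow_zero, pow_zero, one_mul, one_mul]
        exact (card_filter_le _ _).trans hΩ.le
  | succ j ih =>
    obtain ⟨C, hC, hCΩ, hCA⟩ := ih
    obtain ⟨W, hW0⟩ : ∃ W, W = (Ico (0 : ℤ) ((n * g : ℕ) : ℤ)).powerset.filter
      fun S => S.card ≤ 512 * (M * r) := ⟨_, rfl⟩
    have hWc : W.card ≤ (n * g + 1) ^ (512 * (M * r)) := by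
      have := card_small (Ico (0 : ℤ) ((n * g : ℕ) : ℤ)) (512 * (M * r))
      rwa [hΩ, ← hW0] at this
    refine ⟨(C ∪ C.image (trim g k M)) ∪
      (C ×ˢ W ×ˢ W).image fun e : Finset ℤ × Finset ℤ × Finset ℤ =>
        nxt2 g (th2 g k r (trim g k M e.1)) (trim g k M e.1) e.2.1 e.2.2, ?_, ?_, ?_⟩
    · have h1 := card_image_le (s := C ×ˢ W ×ˢ W)
        (f := fun e : Finset ℤ × Finset ℤ × Finset ℤ =>
          nxt2 g (th2 g k r (trim g k M e.1)) (trim g k M e.1) e.2.1 e.2.2)
      have h1' := card_image_le (s := C) (f := trim g k M)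
      rw [card_product, card_product] at h1
      obtain ⟨B, hB⟩ : ∃ B, B = (n * g + 1) ^ (512 * (M * r)) := ⟨_, rfl⟩
      have h2 : 4 ≤ (n * g + 1) ^ (M * r) :=
        calc 4 = 2 ^ 2 := by norm_num
          _ ≤ (n * g + 1) ^ 2 := Nat.pow_le_pow_left (by omega) 2
          _ ≤ (n * g + 1) ^ (M * r) := Nat.pow_le_pow_right (by omega) hs
      have h4 : 1 ≤ B * B := by
        rw [hB]
        exact Nat.succ_le_of_lt (by positivity)
      have h5 : W.card * W.card ≤ B * B := by
        rw [hB]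
        exact Nat.mul_le_mul hWc hWc
      have h6 : 2 ^ n * (n * g + 1) ^ (1025 * (M * r) * (j + 1)) =
          2 ^ n * (n * g + 1) ^ (1025 * (M * r) * j) * (B * B * (n * g + 1) ^ (M * r)) := by
        rw [hB, mul_assoc (2 ^ n), ← pow_add, ← pow_add, ← pow_add]
        congr 2
        ring
      have h7 : 2 + W.card * W.card ≤ B * B * (n * g + 1) ^ (M * r) := by
        have := Nat.mul_le_mul_left (B * B) h2
        omega
      calc _ ≤ (C.card + C.card) + C.card * (W.card * W.card) :=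
            (card_union_le _ _).trans (Nat.add_le_add
              ((card_union_le _ _).trans (Nat.add_le_add_left h1' _)) h1)
        _ = C.card * (2 + W.card * W.card) := by ring
        _ ≤ _ := by
            rw [h6]
            exact Nat.mul_le_mul hC h7
    · intro U hU
      rcases mem_union.1 hU with hU | hU
      · rcases mem_union.1 hU with hU | hU
        · exact hCΩ U hU
        · obtain ⟨V, hV, rfl⟩ := mem_image.1 hU
          exact (cont2_trim_subset _ _ _ _).trans (hCΩ _ hV)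
      · obtain ⟨e, he, rfl⟩ := mem_image.1 hU
        exact ((nxt2_subset _ _ _ _ _).trans (cont2_trim_subset _ _ _ _)).trans
          (hCΩ _ (mem_product.1 he).1)
    · intro A hA hW hreg hm
      obtain ⟨U, hU, hcov, h1, h2⟩ := hCA A hA hW hreg hm
      have h0 : 528 * (M * r) * (j + 1) = 528 * (M * r) * j + 528 * (M * r) := by ring
      by_cases hR : k * r * U.card < 128 * g
      · exact ⟨U, mem_union_left _ (mem_union_left _ hU), hcov, by omega, Or.inl hR⟩
      have h5 := h2.resolve_left hR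
      have hl := trim_loss (M := M) (U := U) hreg
      have hT := cont2_trim_subset g k M U
      have fin : ∀ V : Finset ℤ, 256 * V.card ≤ 255 * U.card →
          256 ^ (j + 1) * V.card ≤ 255 ^ (j + 1) * (n * g) := fun V h4 =>
        calc 256 ^ (j + 1) * V.card = 256 ^ j * (256 * V.card) := by ring
          _ ≤ 256 ^ j * (255 * U.card) := Nat.mul_le_mul_left _ h4
          _ = 255 * (256 ^ j * U.card) := by ring
          _ ≤ 255 * (255 ^ j * (n * g)) := Nat.mul_le_mul_left _ h5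
          _ = 255 ^ (j + 1) * (n * g) := by ring
      by_cases ht : 2 * (trim g k M U).card < U.card
      · exact ⟨trim g k M U, mem_union_left _ (mem_union_right _ (mem_image_of_mem _ hU)),
          hcov.mono hT, by omega, Or.inr (fin _ (by omega))⟩
      have ht' := not_lt.1 ht
      have hR' : 64 * g ≤ k * r * (trim g k M U).card := by
        have h6 := Nat.mul_le_mul_left (k * r) ht'
        have h7 : k * r * (2 * (trim g k M U).card) = 2 * (k * r * (trim g k M U).card) := by ring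
        omega
      obtain ⟨S, hS, F, hF, hSc, hFc, h3, h4⟩ :=
        phase2 hg hk hkr hP hW hreg hm (hcov.mono hT) (trim_blk ht') hR'
      have hSM : S ∈ W := by
        rw [hW0]
        exact mem_filter.2 ⟨mem_powerset.2 (hS.trans hA), hSc⟩
      have hFM : F ∈ W := by
        rw [hW0]
        exact mem_filter.2 ⟨mem_powerset.2 (hF.trans hA), hFc⟩
      have hTc := card_le_card hT
      refine ⟨nxt2 g (th2 g k r (trim g k M U)) (trim g k M U) S F,
        mem_union_right _ (mem_image.2 ⟨(U, S, F), ?_, rfl⟩),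
        hcov.mono ((nxt2_subset _ _ _ _ _).trans hT), ?_, Or.inr (fin _ (by omega))⟩
      · exact mem_product.2 ⟨hU, mem_product.2 ⟨hSM, hFM⟩⟩
      · have h8 : A ∩ trim g k M U ⊆
            A ∩ nxt2 g (th2 g k r (trim g k M U)) (trim g k M U) S F ∪ S := by
          intro x hx
          by_cases hxS : x ∈ S
          · exact mem_union_right _ hxS
          · rw [mem_inter] at hx
            exact mem_union_left _ (mem_inter.2
              ⟨hx.1, h3 (mem_inter.2 ⟨mem_sdiff.2 ⟨hx.1, hxS⟩, hx.2⟩)⟩)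
        have h6 := (card_le_card h8).trans (card_union_le _ _)
        omega

theorem cont2 {g k r M n J : ℕ} (hg : 0 < g) (hk : 32 ≤ k) (hkr : k ≤ r) (hP : g ≤ M * r ^ 3)
    (hkg : k * r ≤ g) (hn : 1 ≤ n) (hJ : 255 ^ J * (n * g) ≤ 256 ^ J) :
    ∃ C : Finset (Finset ℤ), C.card ≤ 2 ^ n * (n * g + 1) ^ (1025 * (M * r) * J) ∧
      (∀ U ∈ C, U ⊆ Ico 0 ((n * g : ℕ) : ℤ) ∧ k * r * U.card ≤ 128 * g) ∧
      ∀ A ⊆ Ico 0 ((n * g : ℕ) : ℤ), WS2 g A → Reg g (k * r) A → A.card = M * (k * r) →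
        ∃ U ∈ C, M * (k * r) ≤ (A ∩ U).card + 528 * (M * r) * J := by
  obtain ⟨C, hC, hCΩ, hCA⟩ := cont2_ind hg hk hkr hP hn J
  refine ⟨C.filter fun U => k * r * U.card ≤ 128 * g, (card_filter_le _ _).trans hC, ?_, ?_⟩
  · intro U hU
    rw [mem_filter] at hU
    exact ⟨hCΩ U hU.1, hU.2⟩
  · intro A hA hW hreg hm
    obtain ⟨U, hU, -, h1, h2⟩ := hCA A hA hW hreg hm
    refine ⟨U, mem_filter.2 ⟨hU, ?_⟩, h1⟩
    rcases h2 with h2 | h2
    · exact h2.le
    · have h3 : 256 ^ J * U.card ≤ 256 ^ J * 1 := by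
        rw [mul_one]
        exact h2.trans hJ
      have h4 : U.card ≤ 1 := Nat.le_of_mul_le_mul_left h3 (by positivity)
      have h6 := Nat.mul_le_mul_left (k * r) h4
      omega

end Pool.Agent.Lib.MP_c03ca8_nt.N
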