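import Pool.Agent.Lib.MP_c03ca8_nt.N.Union

/-! Few short blocks hold many primes. -/

open Finset Real

namespace Pool.Agent.Lib.MP_c03ca8_nt.N

theorem fat2 : ∃ C : ℝ, 1 ≤ C ∧ ∀ (L : ℝ) (v w r N : ℕ) (y0 : ℤ) (G : ℤ → Finset ℤ),
    8192 ≤ w → 1 ≤ r → w ^ 2 ≤ v → (v : ℝ) ^ 2 ≤ L → C * log L ≤ w → exp (4 * L) ≤ N →
    ((w ^ 10 * v ^ 2 * r : ℕ) : ℝ) ≤ L ^ 2 →
    ∀ I ⊆ Ioc y0 (y0 + N),
      (∀ y ∈ I, G y ⊆ Ico 0 ((w ^ 10 * v ^ 2 * r : ℕ) : ℤ) ∧ w ^ 14 * r ≤ (G y).card ∧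
        ∀ h ∈ G y, exp L < ((y + h : ℤ) : ℝ) ∧ Prime (y + h)) →
      I.card * (w ^ 2 * v ^ 2) ≤ N := by
  obtain ⟨C0, hC0, hs2⟩ := sieve2
  refine ⟨max C0 512, hC0.trans (le_max_left _ _), ?_⟩
  intro L v w r N y0 G hw hr hv hL hCw hN hH I hI hG
  have hw1 : 1 ≤ w := by omega
  have hw2 : 8192 * w ≤ w ^ 2 := by rw [pow_two]; exact Nat.mul_le_mul_right _ hw
  have hv2 : 8192 ≤ v := by omega
  have hvR : (8192 : ℝ) ≤ v := by exact_mod_cast hv2
  have hwR : (8192 : ℝ) ≤ w := by exact_mod_cast hw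
  have hvw : (w : ℝ) ^ 2 ≤ v := by exact_mod_cast hv
  have hL2 : 2 ≤ L := by nlinarith
  have hl : 0 ≤ log L := log_nonneg (by linarith)
  have hw0 : C0 * log L ≤ w := (mul_le_mul_of_nonneg_right (le_max_left _ _) hl).trans hCw
  have hw5 : 512 * log L ≤ w := (mul_le_mul_of_nonneg_right (le_max_right _ _) hl).trans hCw
  have htL : 2 * (w : ℝ) * (w : ℝ) ^ 2 ≤ L := by
    refine le_trans ?_ hL
    rw [pow_two (v : ℝ)]
    exact mul_le_mul (by nlinarith) hvw (by positivity) (by positivity)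
  obtain ⟨g, hg⟩ : ∃ g, g = w ^ 10 * v ^ 2 * r := ⟨_, rfl⟩
  have hg2 : 2 ≤ g := by
    have h1 : 1 ≤ w ^ 10 := Nat.one_le_pow _ _ hw1
    have h2 : v ≤ v ^ 2 := Nat.le_self_pow (by norm_num) v
    calc 2 ≤ 1 * v ^ 2 * 1 := by omega
      _ ≤ g := by rw [hg]; exact Nat.mul_le_mul (Nat.mul_le_mul_right _ h1) hr
  rw [← hg] at hG hH
  have hm : 2 * w ≤ w ^ 14 * r := by
    have h1 : w ^ 2 ≤ w ^ 14 := Nat.pow_le_pow_right hw1 (by norm_num)
    have h2 : w ^ 14 ≤ w ^ 14 * r := Nat.le_mul_of_pos_right _ hr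
    omega
  have hd := double (I := I) (C := {Ico 0 (g : ℤ)}) (G := G) (m := w ^ 14 * r) (R := g) (t := w)
    (β := 3 * N * (2 * (w : ℝ) * (w : ℝ) ^ 2 / L) ^ w)
    (fun U hU => by rw [mem_singleton.1 hU]; simp)
    (fun y hy => by
      obtain ⟨h1, h3, -⟩ := hG y hy
      refine ⟨_, mem_singleton_self _, ?_⟩
      rwa [inter_eq_left.2 h1])
    (fun U hU T hT hTc => by
      rw [mem_singleton.1 hU] at hT
      have h := hs2 L w g N T y0 hT (by omega) hg2 hH hL2 hw0 (by rw [hTc]; exact htL)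
        hN (I.filter fun y => T ⊆ G y) ((filter_subset _ _).trans hI) (fun n hn h hh =>
          (hG n (mem_filter.1 hn).1).2.2 h ((mem_filter.1 hn).2 hh))
      rwa [hTc] at h)
    (by positivity) (by omega)
  have hM : w ^ 14 * r ≤ 2 * (w ^ 14 * r + 1 - w) := by omega
  have hM0 : 0 < w ^ 14 * r + 1 - w := by omega
  obtain ⟨M, hMe⟩ : ∃ M, M = w ^ 14 * r + 1 - w := ⟨_, rfl⟩
  rw [← hMe] at hd hM hM0
  have hMR : (w : ℝ) ^ 14 * r ≤ 2 * M := by exact_mod_cast hM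
  have hf := badle_fin (by exact_mod_cast hM0) (Nat.cast_nonneg _) (by positivity)
    (Nat.cast_nonneg _) (by rw [card_singleton, Nat.cast_one]; exact one_le_pow₀ (by norm_num))
    hd (by
      rw [← mul_div_assoc, div_le_iff₀ (by linarith), hg]
      push_cast
      have h1 : (0 : ℝ) ≤ w ^ 13 * r := by positivity
      calc 6 * ((w : ℝ) ^ 10 * v ^ 2 * r) * (2 * w * w ^ 2)
          = 12 * (w ^ 13 * r) * v ^ 2 := by ring
        _ ≤ M * L := by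
          refine mul_le_mul ?_ hL (by positivity) (Nat.cast_nonneg _)
          have h2 : (w : ℝ) ^ 14 * r = w * (w ^ 13 * r) := by ring
          nlinarith)
  have h3 : 3 * (w ^ 2 * v ^ 2) ≤ 2 ^ w := by
    have h0 : 0 < L := by linarith
    have h1 : (w : ℝ) ^ 2 * v ^ 2 ≤ L * L :=
      mul_le_mul (by nlinarith) hL (by positivity) h0.le
    have h2 : 3 * (L * L) ≤ L ^ 4 := by
      rw [show L ^ 4 = (L * L) * (L * L) by ring]
      exact mul_le_mul_of_nonneg_right (by nlinarith) (by positivity)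
    have h4 : L ^ 4 ≤ 2 ^ w := by
      rw [← exp_log (pow_pos h0 4), ← exp_log (pow_pos two_pos w), log_pow, log_pow]
      refine exp_le_exp.2 ?_
      push_cast
      nlinarith [log_two_gt_d9]
    have h5 : 3 * ((w : ℝ) ^ 2 * v ^ 2) ≤ 2 ^ w := by linarith
    exact_mod_cast h5
  have h4 : I.card * 2 ^ w ≤ 3 * N := by exact_mod_cast hf
  have h5 := Nat.mul_le_mul_left I.card h3
  have h6 : I.card * (3 * (w ^ 2 * v ^ 2)) = 3 * (I.card * (w ^ 2 * v ^ 2)) := by ring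
  omega

end Pool.Agent.Lib.MP_c03ca8_nt.N
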