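import Pool.Agent.Lib.MP_c03ca8_nt.N2.Bad
import Pool.Agent.Lib.MP_c03ca8_nt.N2.Fat

/-! Sets of primes without a parallelogram in the box are sparse. -/

open Finset Real

namespace Pool.Agent.Lib.MP_c03ca8_nt.N

theorem core3_ws {A : Finset ℤ} {g : ℕ} {H : ℤ} (y : ℤ)
    (h : ∀ p a b : ℤ, 0 < a → a < b → a ≤ g → b ≤ H → p ∈ A → p + a ∈ A → p + b ∈ A →
      p + a + b ∉ A) : WS2 g ((Ico 0 H).filter fun x => y + x ∈ A) := by
  have key : ∀ a b c d : ℤ, a ∈ (Ico 0 H).filter (fun x => y + x ∈ A) →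
      b ∈ (Ico 0 H).filter (fun x => y + x ∈ A) → c ∈ (Ico 0 H).filter (fun x => y + x ∈ A) →
      d ∈ (Ico 0 H).filter (fun x => y + x ∈ A) → a + d = b + c → a < b → b < c → b - a ≤ g →
      False := by
    intro a b c d ha hb hc hd e h1 h2 h3
    rw [mem_filter, mem_Ico] at ha hb hc hd
    refine h (y + a) (b - a) (c - a) (by omega) (by omega) h3 (by omega) ha.2 ?_ ?_ ?_
    · rw [show y + a + (b - a) = y + b by ring]; exact hb.2
    · rw [show y + a + (c - a) = y + c by ring]; exact hc.2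
    · rw [show y + a + (b - a) + (c - a) = y + d by omega]; exact hd.2
  intro a ha b hb c hc d hd e g1 g2
  by_contra hn
  simp only [not_or] at hn
  obtain ⟨h1, h2, h3, h4⟩ := hn
  rcases lt_or_gt_of_ne h3 with h3 | h3 <;> rcases lt_or_gt_of_ne h4 with h4 | h4
  · rcases lt_or_gt_of_ne h1 with h1 | h1
    · exact key a b c d ha hb hc hd e h1 h4 (by omega)
    · exact key b a d c hb ha hd hc e.symm h1 h3 (by omega)
  · rcases lt_or_gt_of_ne h2 with h2 | h2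
    · exact key a c b d ha hc hb hd (by omega) h2 h4 (by omega)
    · exact key c a d b hc ha hd hb (by omega) h2 h3 (by omega)
  · rcases lt_or_gt_of_ne h2 with h2 | h2
    · exact key b d a c hb hd ha hc (by omega) (by omega) h3 (by omega)
    · exact key d b c a hd hb hc ha (by omega) (by omega) h4 (by omega)
  · rcases lt_or_gt_of_ne h1 with h1 | h1
    · exact key c d a b hc hd ha hb (by omega) (by omega) h3 (by omega)
    · exact key d c b a hd hc hb ha (by omega) (by omega) h4 (by omega)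

theorem core3_v {v w r M : ℕ} (hw : 8192 ≤ w) (hr : w ^ 27 ≤ r) (hM : 0 < M)
    (h : M * r ^ 2 ≤ 2 * (w ^ 10 * v ^ 2)) : w ^ 2 ≤ v := by
  by_contra hc
  have h1 : v ^ 2 ≤ (w ^ 2) ^ 2 := Nat.pow_le_pow_left (not_le.1 hc).le 2
  have h2 : (w ^ 27) ^ 2 ≤ r ^ 2 := Nat.pow_le_pow_left hr 2
  have h3 : r ^ 2 ≤ M * r ^ 2 := Nat.le_mul_of_pos_left _ hM
  have h4 : w ^ 40 * w ^ 14 ≤ 2 * w ^ 14 :=
    calc w ^ 40 * w ^ 14 = (w ^ 27) ^ 2 := by ring
      _ ≤ 2 * (w ^ 10 * v ^ 2) := h2.trans (h3.trans h)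
      _ ≤ 2 * (w ^ 10 * (w ^ 2) ^ 2) := by gcongr
      _ = 2 * w ^ 14 := by ring
  have h5 := Nat.le_of_mul_le_mul_right h4 (pow_pos (by omega) 14)
  have h6 : w ≤ w ^ 40 := Nat.le_self_pow (by omega) w
  omega

theorem core3_H {v w r M : ℕ} (hw : 8192 ≤ w) (hr : w ^ 27 ≤ r)
    (h : M * r ^ 2 ≤ 2 * (w ^ 10 * v ^ 2)) : M * w ^ 6 * (w ^ 10 * v ^ 2 * r) ≤ v ^ 4 := by
  have hr0 : 0 < r := (pow_pos (by omega) 27).trans_le hr
  refine Nat.le_of_mul_le_mul_right ?_ hr0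
  calc M * w ^ 6 * (w ^ 10 * v ^ 2 * r) * r = M * r ^ 2 * (w ^ 16 * v ^ 2) := by ring
    _ ≤ 2 * (w ^ 10 * v ^ 2) * (w ^ 16 * v ^ 2) := Nat.mul_le_mul_right _ h
    _ = v ^ 4 * (2 * w ^ 26) := by ring
    _ ≤ v ^ 4 * (w * w ^ 26) := by gcongr; omega
    _ = v ^ 4 * w ^ 27 := by ring
    _ ≤ v ^ 4 * r := Nat.mul_le_mul_left _ hr

theorem core3_shift {A : Finset ℤ} {g : ℕ} (hg : 0 < g) (H y j : ℤ) :
    (blk g ((Ico 0 H).filter fun x => y + x ∈ A) j).card ≤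
      ((Ico 0 (g : ℤ)).filter fun x => y + j * g + x ∈ A).card := by
  have hg' : (0 : ℤ) < g := by exact_mod_cast hg
  refine card_le_card_of_injOn (fun x => x - j * g) (fun x hx => ?_) fun p _ q _ e => ?_
  · obtain ⟨h1, h2⟩ := mem_filter.1 (mem_coe.1 hx)
    have h3 := Int.emod_add_mul_ediv x g
    have h4 := Int.emod_lt_of_pos x hg'
    have h5 := Int.emod_nonneg x hg'.ne'
    rw [h2, mul_comm] at h3
    refine mem_coe.2 (mem_filter.2 ⟨mem_Ico.2 ⟨?_, ?_⟩, ?_⟩)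
    · show 0 ≤ x - j * g
      omega
    · show x - j * g < g
      omega
    · show y + j * g + (x - j * g) ∈ A
      rw [show y + j * g + (x - j * g) = y + x by ring]
      exact (mem_filter.1 h1).2
  · simpa using e

theorem core3 : ∃ C : ℝ, 1 ≤ C ∧ ∀ (L : ℝ) (v w r M Y : ℕ) (X : ℤ),
    8192 ≤ w → w ^ 27 ≤ r → (v : ℝ) ^ 2 ≤ L → C * log L ≤ w → exp L ≤ X → exp (4 * L) ≤ Y →
    w ^ 10 * v ^ 2 ≤ M * r ^ 2 → M * r ^ 2 ≤ 2 * (w ^ 10 * v ^ 2) →
    ∀ A ⊆ Ioc X (X + Y), (∀ p ∈ A, Prime p) →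
      (∀ p a b : ℤ, 0 < a → a < b → a ≤ ((w ^ 10 * v ^ 2 * r : ℕ) : ℤ) →
        b ≤ ((M * w ^ 6 * (w ^ 10 * v ^ 2 * r) : ℕ) : ℤ) → p ∈ A → p + a ∈ A →
        p + b ∈ A → p + a + b ∉ A) →
      A.card * (v ^ 2 * w ^ 2) ≤ 4 * (Y + M * w ^ 6 * (w ^ 10 * v ^ 2 * r)) := by
  obtain ⟨C1, hC1, hb⟩ := bad2
  obtain ⟨C2, hC2, hf⟩ := fat2
  refine ⟨max C1 C2, hC1.trans (le_max_left _ _),
    fun L v w r M Y X hw hr hL hCw hX hY hM1 hM2 A hA hp hpar => ?_⟩
  rcases Nat.eq_zero_or_pos v with rfl | hv0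
  · simp
  have hw0 : 0 < w := by omega
  have hr0 : 0 < r := (pow_pos hw0 27).trans_le hr
  have hM0 : 0 < M := by
    rcases Nat.eq_zero_or_pos M with rfl | h
    · have : 0 < w ^ 10 * v ^ 2 := by positivity
      omega
    · exact h
  have hwv := core3_v hw hr hM0 hM2
  have hHv := core3_H hw hr hM2
  have hL1 : (1 : ℝ) ≤ L := le_trans (one_le_pow₀ (by exact_mod_cast hv0)) hL
  have hlog : 0 ≤ log L := log_nonneg hL1
  have k1 : C1 * log L ≤ w := (mul_le_mul_of_nonneg_right (le_max_left _ _) hlog).trans hCw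
  have k2 : C2 * log L ≤ w := (mul_le_mul_of_nonneg_right (le_max_right _ _) hlog).trans hCw
  set g := w ^ 10 * v ^ 2 * r with hg
  set n := M * w ^ 6 with hn
  set H := n * g with hH
  have hg0 : 0 < g := by positivity
  have hn0 : 0 < n := by positivity
  have hH0 : 0 < H := Nat.mul_pos hn0 hg0
  have hgL : (g : ℝ) ≤ L ^ 2 := by
    have h1 : g ≤ v ^ 4 := (Nat.le_mul_of_pos_left _ hn0).trans hHv
    calc (g : ℝ) ≤ ((v : ℝ) ^ 2) ^ 2 := by
          rw [← pow_mul]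
          exact_mod_cast h1
      _ ≤ L ^ 2 := by gcongr
  have hN : exp (4 * L) ≤ ((Y + H : ℕ) : ℝ) := hY.trans (by exact_mod_cast Nat.le_add_right Y H)
  have hpr : ∀ z : ℤ, z ∈ A → exp L < (z : ℝ) ∧ Prime z := fun z h1 =>
    ⟨hX.trans_lt (by exact_mod_cast (mem_Ioc.mp (hA h1)).1), hp _ h1⟩
  let G : ℤ → Finset ℤ := fun y => (Ico 0 (H : ℤ)).filter fun x => y + x ∈ A
  set J := Ioc (X - H) (X - H + (Y + H : ℕ)) with hJ
  let P : ℤ → Prop := fun y =>
    M ≤ ((Ico 0 (n : ℤ)).filter fun j => w ^ 8 * r ≤ (blk g (G y) j).card).card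
  have hI : (J.filter P).card * H ≤ Y + H :=
    hb L v w r M (Y + H) (X - H) hw hr hL k1 hN hM1 hM2 (J.filter P) (filter_subset _ _)
      fun y hy => by
        obtain ⟨B, b1, b2, b3⟩ := pick (g := g) (m := w ^ 8 * r) (G y) _ (mem_filter.1 hy).2
          fun j hj => (mem_filter.1 hj).2
        exact ⟨B, b1.trans (filter_subset _ _), (core3_ws y hpar).mono b1, b2, b3,
          fun x hx => hpr _ (mem_filter.1 (b1 hx)).2⟩
  have hF : ∀ j : ℤ, (J.filter fun y => w ^ 14 * r ≤ (blk g (G y) j).card).card *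
      (w ^ 2 * v ^ 2) ≤ Y + H := fun j => by
    let G2 : ℤ → Finset ℤ := fun z => (Ico 0 (g : ℤ)).filter fun x => z + x ∈ A
    refine le_trans (Nat.mul_le_mul_right _ ?_) (hf L v w r (Y + H) (X - H + j * g) G2 hw hr0 hwv
      hL k2 hN hgL ((Ioc (X - H + j * g) (X - H + j * g + (Y + H : ℕ))).filter
        fun z => w ^ 14 * r ≤ (G2 z).card) (filter_subset _ _) fun z hz =>
          ⟨filter_subset _ _, (mem_filter.1 hz).2, fun x hx => hpr _ (mem_filter.1 hx).2⟩)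
    refine card_le_card_of_injOn (fun y => y + j * g) (fun y hy => ?_) fun p _ q _ e => ?_
    · obtain ⟨h1, h2⟩ := mem_filter.1 (mem_coe.1 hy)
      rw [hJ, mem_Ioc] at h1
      refine mem_coe.2 (mem_filter.2 ⟨mem_Ioc.2 ⟨?_, ?_⟩, h2.trans (core3_shift hg0 _ y j)⟩)
      · show X - H + j * g < y + j * g
        omega
      · show y + j * g ≤ X - H + j * g + (Y + H : ℕ)
        omega
    · simpa using e
  have hJc : J.card = Y + H := by
    rw [hJ, Int.card_Ioc]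
    omega
  let F : ℤ → ℕ := fun y =>
    ((Ico 0 (n : ℤ)).filter fun j => w ^ 14 * r ≤ (blk g (G y) j).card).card
  have hS : (∑ y ∈ J, F y) * (w ^ 2 * v ^ 2) ≤ n * (Y + H) := by
    have e : ∑ y ∈ J, F y = ∑ j ∈ Ico 0 (n : ℤ),
        (J.filter fun y => w ^ 14 * r ≤ (blk g (G y) j).card).card := by
      simp only [F, card_filter]
      exact sum_comm
    rw [e, sum_mul]
    refine (sum_le_card_nsmul _ _ (Y + H) fun j _ => hF j).trans (le_of_eq ?_)
    simp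
  have h1 : ∑ y ∈ J, (G y).card ≤ ∑ y ∈ J, ((n * (w ^ 8 * r) + M * (w ^ 14 * r) + g * F y) +
      if P y then H else 0) := by
    refine sum_le_sum fun y _ => ?_
    split_ifs with h
    · refine le_add_left ((card_filter_le _ _).trans ?_)
      simp
    · exact win hg0 (filter_subset _ _) (not_le.1 h)
  rw [sum_add_distrib, sum_add_distrib, sum_const, ← sum_filter, sum_const, hJc, smul_eq_mul,
    smul_eq_mul, ← mul_sum] at h1
  have h2 := ((core1_count H hA).trans h1).trans (Nat.add_le_add_left hI _)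
  have e1 : (n * (w ^ 8 * r) + M * (w ^ 14 * r)) * (w ^ 2 * v ^ 2) = 2 * H := by
    rw [hH, hn, hg]; ring
  have e2 : w ^ 2 * v ^ 2 ≤ H := by
    have e3 : H = w ^ 2 * v ^ 2 * (M * w ^ 14 * r) := by rw [hH, hn, hg]; ring
    rw [e3]
    exact Nat.le_mul_of_pos_right _ (by positivity)
  refine Nat.le_of_mul_le_mul_right ?_ hH0
  calc A.card * (v ^ 2 * w ^ 2) * H = H * A.card * (w ^ 2 * v ^ 2) := by ring
    _ ≤ ((Y + H) * (n * (w ^ 8 * r) + M * (w ^ 14 * r)) + g * ∑ y ∈ J, F y + (Y + H)) *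
        (w ^ 2 * v ^ 2) := Nat.mul_le_mul_right _ h2
    _ = (Y + H) * ((n * (w ^ 8 * r) + M * (w ^ 14 * r)) * (w ^ 2 * v ^ 2)) +
        g * ((∑ y ∈ J, F y) * (w ^ 2 * v ^ 2)) + (Y + H) * (w ^ 2 * v ^ 2) := by ring
    _ ≤ (Y + H) * (2 * H) + g * (n * (Y + H)) + (Y + H) * H := by
        rw [e1]
        gcongr
    _ = 4 * (Y + H) * H := by
        rw [show g * (n * (Y + H)) = (Y + H) * H by rw [hH]; ring]
        ring

end Pool.Agent.Lib.MP_c03ca8_nt.N
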