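import Pool.Agent.Lib.MP_c03ca8_nt.N.Cont

/-! Parallelograms with one short side: definitions. -/

open Finset

namespace Pool.Agent.Lib.MP_c03ca8_nt.N

/-- No four distinct elements with `a + d = b + c` and `|a - b| < g`. -/
def WS2 (g : ℕ) (A : Finset ℤ) : Prop :=
  ∀ a ∈ A, ∀ b ∈ A, ∀ c ∈ A, ∀ d ∈ A, a + d = b + c → a - b < g → b - a < g →
    a = b ∨ a = c ∨ a = d ∨ b = c

/-- Adjacency through a coincidence whose third point lies in the block of `x`. -/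
def Adj2 (g : ℕ) (S : Finset ℤ) (x x' : ℤ) : Prop :=
  ∃ a ∈ S, ∃ a' ∈ S, a ≠ a' ∧ x + a = x' + a' ∧ x / g = a' / g

open Classical in
/-- The points of `U` that are not adjacent to a point of `F`. -/
noncomputable def rest2 (g : ℕ) (U S F : Finset ℤ) : Finset ℤ :=
  U.filter fun x => ¬ ∃ f ∈ F, Adj2 g S f x

open Classical in
/-- The next container. -/
noncomputable def nxt2 (g : ℕ) (θ : ℝ) (U S F : Finset ℤ) : Finset ℤ :=
  (rest2 g U S F).filter fun x => (((rest2 g U S F).filter fun x' => Adj2 g S x x').card : ℝ) < θ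

/-- The first and the third point of each coincidence lie in one block. -/
def Loc (g : ℕ) (Q : Finset (ℤ × ℤ × ℤ)) : Prop := ∀ e ∈ Q, e.1 / g = e.2.2 / g

/-- The part of `U` in the block number `j`. -/
def blk (g : ℕ) (U : Finset ℤ) (j : ℤ) : Finset ℤ := U.filter fun x => x / g = j

/-- Every block that `A` meets holds exactly `m` points of `A`. -/
def Reg (g m : ℕ) (A : Finset ℤ) : Prop := ∀ a ∈ A, (blk g A (a / g)).card = m

/-- Every block that `U` meets is met by `A`. -/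
def Cov (g : ℕ) (A U : Finset ℤ) : Prop := ∀ u ∈ U, ∃ a ∈ A, a / g = u / g

/-- `U` without its large blocks. -/
def trim (g k M : ℕ) (U : Finset ℤ) : Finset ℤ :=
  U.filter fun x => 16 * M * (blk g U (x / g)).card ≤ k * U.card

/-- The threshold used in one step. -/
noncomputable def th2 (g k r : ℕ) (U : Finset ℤ) : ℝ :=
  ((k * r * U.card / (4 * g) : ℕ) : ℝ) * r / k / 64

theorem WS2.mono {g : ℕ} {A B : Finset ℤ} (h : WS2 g A) (hB : B ⊆ A) : WS2 g B :=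
  fun a ha b hb c hc d hd => h a (hB ha) b (hB hb) c (hB hc) d (hB hd)

theorem nxt2_subset (g : ℕ) (θ : ℝ) (U S F : Finset ℤ) : nxt2 g θ U S F ⊆ U := by
  classical
  exact (filter_subset _ _).trans (filter_subset _ _)

theorem Cov.mono {g : ℕ} {A U V : Finset ℤ} (h : Cov g A U) (hV : V ⊆ U) : Cov g A V :=
  fun u hu => h u (hV hu)

theorem blk_near {g : ℕ} (hg : 0 < g) {x y : ℤ} (h : x / g = y / g) : x - y < g := by
  have hg' : (0 : ℤ) < g := by exact_mod_cast hg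
  have h1 := Int.emod_add_mul_ediv x g
  have h2 := Int.emod_add_mul_ediv y g
  have h3 := Int.emod_lt_of_pos x hg'
  have h4 := Int.emod_nonneg y hg'.ne'
  rw [h] at h1
  omega

/-- At most two close representations of a nonzero difference. -/
theorem ws2_two {g : ℕ} {A : Finset ℤ} (hA : WS2 g A) {δ : ℤ} (hδ : δ ≠ 0) {P : Finset (ℤ × ℤ)}
    (h1 : ∀ e ∈ P, e.1 ∈ A ∧ e.2 ∈ A ∧ e.1 - e.2 = δ)
    (h2 : ∀ e ∈ P, ∀ f ∈ P, e.1 - f.1 < g) : P.card ≤ 2 := by
  by_contra h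
  obtain ⟨⟨a, a'⟩, ⟨b, b'⟩, ⟨c, c'⟩, ha, hb, hc, n1, n2, n3⟩ := two_lt_card_iff.1 (not_le.1 h)
  obtain ⟨a1, a2, a3⟩ := h1 _ ha
  obtain ⟨b1, b2, b3⟩ := h1 _ hb
  obtain ⟨c1, c2, c3⟩ := h1 _ hc
  simp only [ne_eq, Prod.mk.injEq] at n1 n2 n3 a1 a2 a3 b1 b2 b3 c1 c2 c3
  have k1 := hA a a1 b b1 a' a2 b' b2 (by omega) (h2 _ ha _ hb) (h2 _ hb _ ha)
  have k2 := hA a a1 c c1 a' a2 c' c2 (by omega) (h2 _ ha _ hc) (h2 _ hc _ ha)
  have k3 := hA b b1 c c1 b' b2 c' c2 (by omega) (h2 _ hb _ hc) (h2 _ hc _ hb)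
  omega

end Pool.Agent.Lib.MP_c03ca8_nt.N
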