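import Pool.Agent.Lib.MP_c03ca8_nt.N2.Heavy

/-! A regular family of local coincidences. -/

open Finset

namespace Pool.Agent.Lib.MP_c03ca8_nt.N

theorem edgA_blk {g m : ℕ} {A U : Finset ℤ} (hreg : Reg g m A) (hcov : Cov g A U) {u : ℤ}
    (hu : u ∈ U) : (blk g A (u / g)).card = m := by
  obtain ⟨a, ha, h⟩ := hcov u hu
  rw [← h]
  exact hreg a ha

theorem edgA_card {g m : ℕ} {A U : Finset ℤ} (hreg : Reg g m A) (hcov : Cov g A U) :
    ((U ×ˢ A).filter fun v : ℤ × ℤ => v.1 / g = v.2 / g).card = m * U.card := by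
  rw [card_filter, sum_product, mul_comm, ← smul_eq_mul, ← sum_const]
  refine sum_congr rfl fun u hu => ?_
  rw [← edgA_blk hreg hcov hu, blk, card_filter]
  exact sum_congr rfl fun a _ => if_congr eq_comm rfl rfl

theorem edges2 {g m σ : ℕ} (hg : 0 < g) {A U : Finset ℤ} {Λ : ℝ} (hA : WS2 g A)
    (hreg : Reg g m A) (hcov : Cov g A U) (hσ : 16 ≤ σ) (hH : 4 * g * σ ≤ m * U.card)
    (hΛ : 0 < Λ) (h : ∀ j, 4 * ((blk g U j).card : ℝ) ≤ Λ ^ 2) :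
    ∃ Q : Finset (ℤ × ℤ × ℤ), Sym A U Q ∧ Loc g Q ∧ (∀ u, dg Q u ≤ σ * m) ∧
      (∀ u a, ((Q.filter fun e => e.1 = u ∧ e.2.1 = a).card : ℝ) ≤ Λ) ∧
      (∀ u a, (Q.filter fun e => e.1 = u ∧ e.2.2 = a).card ≤ σ) ∧
      σ * m * U.card ≤ 4 * Q.card := by
  classical
  obtain ⟨Q₀, h1, h2, h3⟩ := exists_rel ((U ×ˢ A).filter fun v : ℤ × ℤ => v.1 / g = v.2 / g)
    (Ico (-(g : ℤ)) g) (fun v => v.1 - v.2) (fun v hv => by
      have a1 := blk_near hg (mem_filter.mp hv).2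
      have a2 := blk_near hg (mem_filter.mp hv).2.symm
      exact mem_Ico.mpr ⟨by omega, by omega⟩) σ
  have hV : ∀ u a : ℤ, (u, a) ∈ ((U ×ˢ A).filter fun v : ℤ × ℤ => v.1 / g = v.2 / g) →
      (u ∈ U ∧ a ∈ A) ∧ u / g = a / g := fun u a hv => by
    simpa only [mem_filter, mem_product] using hv
  have hv := heavyAll hg hA hΛ h
  set cnt : ℤ → ℤ → ℕ := fun u a => ((blk g U (u / g) ×ˢ A).filter
    fun e' : ℤ × ℤ => e'.1 + e'.2 = u + a).card with hcnt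
  set Hv := (U ×ˢ A).filter fun e : ℤ × ℤ => Λ < (cnt e.1 e.2 : ℝ) with hHv
  have hv' : Hv.card ≤ 2 * U.card := hv
  set Q := (U ×ˢ A ×ˢ A).filter fun e : ℤ × ℤ × ℤ =>
    ((e.1, e.2.2), (e.1 + e.2.1 - e.2.2, e.2.1)) ∈ Q₀ ∧ (cnt e.1 e.2.1 : ℝ) ≤ Λ ∧
      (cnt (e.1 + e.2.1 - e.2.2) e.2.2 : ℝ) ≤ Λ with hQ
  have hm : ∀ u a b, (u, a, b) ∈ Q ↔ (u ∈ U ∧ a ∈ A ∧ b ∈ A) ∧
      ((u, b), (u + a - b, a)) ∈ Q₀ ∧ (cnt u a : ℝ) ≤ Λ ∧ (cnt (u + a - b) b : ℝ) ≤ Λ :=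
    fun u a b => by simp only [hQ, mem_filter, mem_product]
  have hfib : ∀ u b, (Q.filter fun e => e.1 = u ∧ e.2.2 = b).card ≤ σ := fun u b => by
    refine le_trans (card_le_card_of_injOn
      (fun e : ℤ × ℤ × ℤ => ((e.1, e.2.2), (e.1 + e.2.1 - e.2.2, e.2.1))) ?_ ?_) (h2 (u, b))
    · rintro ⟨u', a', b'⟩ he
      obtain ⟨k1, k2, k3⟩ := mem_filter.mp (mem_coe.mp he)
      exact mem_coe.mpr (mem_filter.mpr ⟨((hm _ _ _).mp k1).2.1, Prod.ext k2 k3⟩)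
    · rintro ⟨u₁, a₁, b₁⟩ - ⟨u₂, a₂, b₂⟩ - he
      simp only [Prod.mk.injEq] at he ⊢
      exact ⟨he.1.1, he.2.2, he.1.2⟩
  refine ⟨Q, ?_, ?_, fun u => ?_, fun u a => ?_, hfib, ?_⟩
  · rintro ⟨u, a, b⟩ he
    obtain ⟨⟨k1, k2, k3⟩, k4, k5, k6⟩ := (hm u a b).mp he
    obtain ⟨-, l2, l3, -, l5⟩ := h1 _ k4
    have e : u + a - b + b - a = u := by ring
    refine ⟨k1, k2, k3, fun hab => l3 ?_,
      (hm _ _ _).mpr ⟨⟨(hV _ _ l2).1.1, k3, k2⟩, ?_, k6, ?_⟩⟩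
    · have hab' : a = b := hab
      subst hab'
      simp
    · show ((u + a - b, a), (u + a - b + b - a, b)) ∈ Q₀
      rw [e]
      exact l5
    · show (cnt (u + a - b + b - a) a : ℝ) ≤ Λ
      rw [e]
      exact k5
  · rintro ⟨u, a, b⟩ he
    exact (hV _ _ (h1 _ ((hm u a b).mp he).2.1).1).2
  · rcases (Q.filter fun e => e.1 = u).eq_empty_or_nonempty with h0 | ⟨⟨u', a', b'⟩, he⟩
    · rw [dg, h0]
      exact Nat.zero_le _
    obtain ⟨k1, k2⟩ := mem_filter.mp he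
    have k2' : u' = u := k2
    subst k2'
    rw [dg, ← edgA_blk hreg hcov ((hm _ _ _).mp k1).1.1]
    refine card_le_mul_card_image_of_maps_to (f := fun e : ℤ × ℤ × ℤ => e.2.2) ?_ σ ?_
    · rintro ⟨u₁, a₁, b₁⟩ he₁
      obtain ⟨l1, l2⟩ := mem_filter.mp he₁
      have l2' : u₁ = u' := l2
      subst l2'
      obtain ⟨⟨-, -, m3⟩, m4, -⟩ := (hm _ _ _).mp l1
      exact mem_filter.mpr ⟨m3, (hV _ _ (h1 _ m4).1).2.symm⟩
    · intro b _
      rw [filter_filter]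
      exact hfib u' b
  · rcases (Q.filter fun e => e.1 = u ∧ e.2.1 = a).eq_empty_or_nonempty with h0 | ⟨⟨u', a', b'⟩, he⟩
    · rw [h0]; simpa using hΛ.le
    obtain ⟨k1, k2, k3⟩ := mem_filter.mp he
    have k2' : u' = u := k2
    have k3' : a' = a := k3
    subst k2' k3'
    obtain ⟨-, k4, -, k6⟩ := (hm _ _ _).mp k1
    refine le_trans ?_ k6
    refine Nat.cast_le.mpr (card_le_card_of_injOn
      (fun e : ℤ × ℤ × ℤ => (e.1 + e.2.1 - e.2.2, e.2.2)) ?_ ?_)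
    · rintro ⟨u₁, a₁, b₁⟩ he₁
      obtain ⟨l1, l2, l3⟩ := mem_filter.mp (mem_coe.mp he₁)
      have l2' : u₁ = u' := l2
      have l3' : a₁ = a' := l3
      subst l2' l3'
      obtain ⟨⟨-, -, m3⟩, m4, -⟩ := (hm _ _ _).mp l1
      have n1 := hV _ _ (h1 _ m4).2.1
      have n2 := hV _ _ (h1 _ k4).2.1
      refine mem_coe.mpr (mem_filter.mpr ⟨mem_product.mpr
        ⟨mem_filter.mpr ⟨n1.1.1, n1.2.trans n2.2.symm⟩, m3⟩, ?_⟩)
      show u₁ + a₁ - b₁ + b₁ = u₁ + a₁ - b' + b'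
      omega
    · rintro ⟨u₁, a₁, b₁⟩ he₁ ⟨u₂, a₂, b₂⟩ he₂ he
      obtain ⟨-, l2, l3⟩ := mem_filter.mp (mem_coe.mp he₁)
      obtain ⟨-, m2, m3⟩ := mem_filter.mp (mem_coe.mp he₂)
      simp only [Prod.mk.injEq] at he l2 l3 m2 m3 ⊢
      exact ⟨l2.trans m2.symm, l3.trans m3.symm, he.2⟩
  · set R := Hv.biUnion fun p : ℤ × ℤ => (blk g A (p.1 / g)).image fun c => (p.1, p.2, c) with hR
    have hRm : ∀ u a c, u ∈ U → a ∈ A → c ∈ A → u / g = c / g → Λ < (cnt u a : ℝ) →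
        (u, a, c) ∈ R := fun u a c k1 k2 k3 k4 k5 =>
      mem_biUnion.mpr ⟨(u, a), mem_filter.mpr ⟨mem_product.mpr ⟨k1, k2⟩, k5⟩,
        mem_image.mpr ⟨c, mem_filter.mpr ⟨k3, k4.symm⟩, rfl⟩⟩
    have hRc : R.card ≤ 2 * U.card * m := by
      refine (card_biUnion_le_card_mul _ _ m fun p hp => ?_).trans (Nat.mul_le_mul_right _ hv')
      exact card_image_le.trans
        (edgA_blk hreg hcov (mem_product.mp (mem_filter.mp hp).1).1).le
    have c1 : Q₀.card ≤ (Q ∪ R ∪ R.image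
        fun e : ℤ × ℤ × ℤ => (e.1 + e.2.1 - e.2.2, e.2.2, e.2.1)).card := by
      refine card_le_card_of_injOn (fun e => (e.1.1, e.2.2, e.1.2)) ?_ ?_
      · rintro ⟨⟨u, b⟩, u', a⟩ he
        obtain ⟨l1, l2, -, l4, -⟩ := h1 _ he
        have l1' := hV _ _ l1
        have l2' := hV _ _ l2
        have l4' : u - b = u' - a := l4
        have e : u + a - b = u' := by omega
        refine mem_coe.mpr (mem_union.mpr ?_)
        rcases le_or_gt (cnt u' b : ℝ) Λ with k | k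
        · refine Or.inl (mem_union.mpr ?_)
          rcases le_or_gt (cnt u a : ℝ) Λ with k' | k'
          · refine Or.inl ((hm _ _ _).mpr ⟨⟨l1'.1.1, l2'.1.2, l1'.1.2⟩, ?_, k', ?_⟩)
            · rw [e]
              exact he
            · rw [e]
              exact k
          · exact Or.inr (hRm _ _ _ l1'.1.1 l2'.1.2 l1'.1.2 l1'.2 k')
        · refine Or.inr (mem_image.mpr ⟨(u', b, a), hRm _ _ _ l2'.1.1 l1'.1.2 l2'.1.2 l2'.2 k, ?_⟩)
          show (u' + b - a, a, b) = (u, a, b)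
          rw [show u' + b - a = u by omega]
      · rintro ⟨⟨u₁, a₁⟩, v₁, b₁⟩ he₁ ⟨⟨u₂, a₂⟩, v₂, b₂⟩ he₂ he
        have l1 : u₁ - a₁ = v₁ - b₁ := (h1 _ he₁).2.2.2.1
        have l2 : u₂ - a₂ = v₂ - b₂ := (h1 _ he₂).2.2.2.1
        simp only [Prod.mk.injEq] at he ⊢
        omega
    have c2 : Q₀.card ≤ Q.card + 2 * U.card * m + 2 * U.card * m :=
      c1.trans ((card_union_le _ _).trans (Nat.add_le_add
        ((card_union_le _ _).trans (Nat.add_le_add_left hRc _)) (card_image_le.trans hRc)))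
    have c3 : (Ico (-(g : ℤ)) g).card = 2 * g := by rw [Int.card_Ico]; omega
    rw [c3, edgA_card hreg hcov] at h3
    have c4 := Nat.mul_le_mul_left σ hH
    have c5 := Nat.mul_le_mul_right (m * U.card) hσ
    nlinarith

end Pool.Agent.Lib.MP_c03ca8_nt.N
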