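import Mathlib

/-! Choice of the integer parameters. -/

open Finset Real

namespace Pool.Agent.Lib.MP_c03ca8_nt.N

theorem par3 {L W α β : ℝ} {v w : ℕ} (hw : 8192 ≤ w) (hwW : (w : ℝ) ≤ W)
    (hvL : (v : ℝ) ^ 2 ≤ L) (hwv : w ^ 22 ≤ v) (hαβ : α ≤ β) (hα : L * W ^ 50 ≤ α)
    (hβ : L ^ 3 * W ^ 50 ≤ α * β) :
    ∃ r M : ℕ, w ^ 27 ≤ r ∧ w ^ 10 * v ^ 2 ≤ M * r ^ 2 ∧ M * r ^ 2 ≤ 2 * (w ^ 10 * v ^ 2) ∧
      ((w ^ 10 * v ^ 2 * r : ℕ) : ℝ) ≤ α ∧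
      ((M * w ^ 6 * (w ^ 10 * v ^ 2 * r) : ℕ) : ℝ) ≤ β ∧
      M * w ^ 6 * (w ^ 10 * v ^ 2 * r) ≤ v ^ 4 := by
  have w0 : 0 < w := by omega
  have v0 : 0 < v := lt_of_lt_of_le (by positivity) hwv
  have w2 : (2 : ℝ) ≤ w := by exact_mod_cast (by omega : 2 ≤ w)
  have w1 : (1 : ℝ) ≤ w := by linarith
  have v1 : (0 : ℝ) < v := by exact_mod_cast v0
  have W50 : (w : ℝ) ^ 50 ≤ W ^ 50 := pow_le_pow_left₀ (by positivity) hwW 50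
  have L0 : 0 < L := lt_of_lt_of_le (by positivity) hvL
  have L3 : (v : ℝ) ^ 6 ≤ L ^ 3 := by
    calc (v : ℝ) ^ 6 = ((v : ℝ) ^ 2) ^ 3 := by ring
      _ ≤ L ^ 3 := pow_le_pow_left₀ (by positivity) hvL 3
  have key : (v : ℝ) ^ 6 * w ^ 50 ≤ α * β :=
    (mul_le_mul L3 W50 (by positivity) (by positivity)).trans hβ
  have a1 : (v : ℝ) ^ 2 * w ^ 50 ≤ α := (mul_le_mul hvL W50 (by positivity) L0.le).trans hα
  have a0 : 0 < α := lt_of_lt_of_le (by positivity) a1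
  have k4 : 4 * (w : ℝ) ^ 42 ≤ w ^ 50 := by
    calc 4 * (w : ℝ) ^ 42 = (2 : ℝ) ^ 2 * (w : ℝ) ^ 42 := by norm_num
      _ ≤ (w : ℝ) ^ 2 * (w : ℝ) ^ 42 := by gcongr
      _ = (w : ℝ) ^ 44 := by ring
      _ ≤ (w : ℝ) ^ 50 := pow_le_pow_right₀ w1 (by norm_num)
  have key2 : 4 * (w : ℝ) ^ 42 * v ^ 6 ≤ α * β := by
    refine le_trans ?_ key
    rw [mul_comm]
    exact mul_le_mul_of_nonneg_left k4 (by positivity)
  obtain ⟨x, hx⟩ : ∃ x, x = w ^ 10 * v ^ 2 := ⟨_, rfl⟩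
  rw [← hx]
  have x0 : 0 < x := by rw [hx]; positivity
  have x0' : (0 : ℝ) < x := by exact_mod_cast x0
  have hx' : (x : ℝ) = w ^ 10 * v ^ 2 := by rw [hx]; push_cast; rfl
  obtain ⟨f, hf⟩ : ∃ f, f = ⌊α / x⌋₊ := ⟨_, rfl⟩
  have f1 : (f : ℝ) * x ≤ α := by
    rw [hf, ← le_div_iff₀ x0']
    exact Nat.floor_le (by positivity)
  have f2 : α < (f + 1) * x := by
    rw [hf, ← div_lt_iff₀ x0']
    exact Nat.lt_floor_add_one _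
  have f3 : w ^ 27 ≤ f := by
    rw [hf]
    refine Nat.le_floor ?_
    rw [le_div_iff₀ x0', hx']
    push_cast
    calc (w : ℝ) ^ 27 * ((w : ℝ) ^ 10 * (v : ℝ) ^ 2) = (v : ℝ) ^ 2 * (w : ℝ) ^ 37 := by ring
      _ ≤ (v : ℝ) ^ 2 * (w : ℝ) ^ 50 :=
        mul_le_mul_of_nonneg_left (pow_le_pow_right₀ w1 (by norm_num)) (by positivity)
      _ ≤ α := a1
  have g3 : w ^ 27 ≤ w ^ 5 * v := by
    calc w ^ 27 = w ^ 5 * w ^ 22 := by ring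
      _ ≤ _ := Nat.mul_le_mul_left _ hwv
  obtain ⟨r, hr⟩ : ∃ r, r = min f (w ^ 5 * v) := ⟨_, rfl⟩
  have r1 : w ^ 27 ≤ r := hr ▸ le_min f3 g3
  have r0 : 0 < r := lt_of_lt_of_le (by positivity) r1
  have r2 : r ^ 2 ≤ x := by
    calc r ^ 2 ≤ (w ^ 5 * v) ^ 2 := Nat.pow_le_pow_left (hr ▸ min_le_right _ _) 2
      _ = x := by rw [hx]; ring
  obtain ⟨M, hM⟩ : ∃ M, M = x / r ^ 2 + 1 := ⟨_, rfl⟩
  have m1 : x ≤ M * r ^ 2 := by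
    rw [hM, add_mul, one_mul]
    exact (Nat.lt_div_mul_add (show 0 < r ^ 2 by positivity)).le
  have m2 : M * r ^ 2 ≤ 2 * x := by
    rw [hM, add_mul, one_mul, two_mul]
    exact Nat.add_le_add (Nat.div_mul_le_self x (r ^ 2)) r2
  obtain ⟨H, hH⟩ : ∃ H, H = M * w ^ 6 * (x * r) := ⟨_, rfl⟩
  have h1 : H * r ≤ 2 * w ^ 26 * v ^ 4 := by
    calc H * r = M * r ^ 2 * (w ^ 6 * x) := by rw [hH]; ring
      _ ≤ 2 * x * (w ^ 6 * x) := Nat.mul_le_mul_right _ m2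
      _ = _ := by rw [hx]; ring
  have h2 : H ≤ v ^ 4 := by
    refine Nat.le_of_mul_le_mul_right (h1.trans ?_) r0
    have e : 2 * w ^ 26 ≤ w ^ 27 := by
      calc 2 * w ^ 26 ≤ w * w ^ 26 := Nat.mul_le_mul_right _ (by omega)
        _ = w ^ 27 := by ring
    calc 2 * w ^ 26 * v ^ 4 ≤ r * v ^ 4 := Nat.mul_le_mul_right _ (e.trans r1)
      _ = v ^ 4 * r := mul_comm _ _
  have h1' : (H : ℝ) * r ≤ 2 * w ^ 26 * v ^ 4 := by exact_mod_cast h1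
  have r0' : (1 : ℝ) ≤ r := by exact_mod_cast r0
  have H0 : (0 : ℝ) ≤ H := by positivity
  refine ⟨r, M, r1, m1, m2, ?_, hH ▸ ?_, hH ▸ h2⟩
  · have e : (r : ℝ) ≤ f := by exact_mod_cast hr ▸ min_le_left _ _
    push_cast
    nlinarith
  · rcases min_choice f (w ^ 5 * v) with e | e
    · have e1 : (f : ℝ) = r := by rw [hr, e]
      rw [e1] at f2
      have e2 : α ≤ 2 * x * r := by nlinarith
      refine le_of_mul_le_mul_left (le_trans ?_ key2) a0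
      calc α * H ≤ 2 * (x : ℝ) * r * H := mul_le_mul_of_nonneg_right e2 H0
        _ = 2 * (x : ℝ) * ((H : ℝ) * r) := by ring
        _ ≤ 2 * (x : ℝ) * (2 * (w : ℝ) ^ 26 * (v : ℝ) ^ 4) :=
          mul_le_mul_of_nonneg_left h1' (by positivity)
        _ = 4 * (w : ℝ) ^ 36 * (v : ℝ) ^ 6 := by rw [hx']; ring
        _ ≤ 4 * (w : ℝ) ^ 42 * (v : ℝ) ^ 6 := by gcongr; norm_num
    · have e1 : (r : ℝ) = w ^ 5 * v := by rw [hr, e]; push_cast; rfl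
      have e2 : (H : ℝ) ≤ 2 * w ^ 21 * v ^ 3 := by
        refine le_of_mul_le_mul_right (h1'.trans_eq ?_) (lt_of_lt_of_le one_pos r0')
        rw [e1]
        ring
      refine (pow_le_pow_iff_left₀ H0 (by linarith) two_ne_zero).1 ?_
      calc (H : ℝ) ^ 2 ≤ (2 * (w : ℝ) ^ 21 * (v : ℝ) ^ 3) ^ 2 := pow_le_pow_left₀ H0 e2 2
        _ = 4 * (w : ℝ) ^ 42 * (v : ℝ) ^ 6 := by ring
        _ ≤ α * β := key2
        _ ≤ β ^ 2 := by nlinarith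

end Pool.Agent.Lib.MP_c03ca8_nt.N
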