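import Pool.Agent.Lib.MP_c03ca8_nt.N2.Core
import Pool.Agent.Lib.MP_c03ca8_nt.N2.Par
import Pool.Agent.Lib.MP_c03ca8_nt.N.Fin

/-! Existence in the box. -/

open Finset Real

namespace Pool.Agent.Lib.MP_c03ca8_nt.N

theorem fina_floor {C L W : ℝ} (hC : 1 ≤ C) (hL : 16 ≤ L) (h : (C + 8193) * log L ≤ W) :
    8192 ≤ ⌊W⌋₊ ∧ C * log L ≤ ⌊W⌋₊ ∧ 8192 ≤ W := by
  have h1 : 1 ≤ log L := by
    rw [le_log_iff_exp_le (by linarith)]
    linarith [exp_one_lt_d9]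
  have h2 := Nat.lt_floor_add_one W
  have h3 : 0 ≤ C * log L := by positivity
  exact ⟨Nat.le_floor (by push_cast; nlinarith), by nlinarith, by nlinarith⟩

theorem fin3 : ∃ C : ℝ, 1 ≤ C ∧ ∀ (n : ℕ) (W α β : ℝ), 16 ≤ log n → C * log (log n) ≤ W →
    W ^ 50 ≤ log n → α ≤ β → log n * W ^ 50 ≤ α → log n ^ 3 * W ^ 50 ≤ α * β →
    ∀ A : Finset ℕ, (∀ p ∈ A, p.Prime ∧ n ^ 5 < p ∧ p < (n + 1) ^ 5) →
      (n : ℝ) ^ 4 / (W * log n) ≤ A.card →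
      ∃ p a b : ℕ, 0 < a ∧ a < b ∧ (a : ℝ) ≤ α ∧ (b : ℝ) ≤ β ∧
        p ∈ A ∧ p + a ∈ A ∧ p + b ∈ A ∧ p + a + b ∈ A := by
  obtain ⟨C, hC1, hC⟩ := core3
  refine ⟨C + 8193, by linarith, fun n W α β h16 hW hW50 hαβ hα hβ A hA hcard => ?_⟩
  obtain ⟨hw, hCw, hW0⟩ := fina_floor hC1 h16 hW
  have hn0 : 0 < n := Nat.pos_of_ne_zero fun h => by
    rw [h, Nat.cast_zero, log_zero] at h16
    norm_num at h16
  have hn1 : (1 : ℝ) ≤ n := by exact_mod_cast hn0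
  have hexp : exp (log n) = n := exp_log (by linarith)
  have hLn : log n ≤ n := (log_le_sub_one_of_pos (by linarith)).trans (by linarith)
  generalize log (n : ℝ) = L at *
  have hL0 : 0 < L := by linarith
  have hw1 : (⌊W⌋₊ : ℝ) ≤ W := Nat.floor_le (by linarith)
  have hw2 : W < (⌊W⌋₊ : ℝ) + 1 := Nat.lt_floor_add_one _
  have hv1 : (⌊√L⌋₊ : ℝ) ≤ √L := Nat.floor_le (by positivity)
  have hv2 : √L < (⌊√L⌋₊ : ℝ) + 1 := Nat.lt_floor_add_one _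
  have hw22 : ((⌊W⌋₊ : ℕ) : ℝ) ^ 22 ≤ W ^ 22 := pow_le_pow_left₀ (by positivity) hw1 22
  have hwv : ⌊W⌋₊ ^ 22 ≤ ⌊√L⌋₊ := Nat.le_floor (by
    push_cast
    refine hw22.trans (le_sqrt_of_sq_le ?_)
    rw [← pow_mul]
    exact (pow_le_pow_right₀ (by linarith) (by norm_num)).trans hW50)
  generalize ⌊W⌋₊ = w at *
  generalize ⌊√L⌋₊ = v at *
  have hw0 : (8192 : ℝ) ≤ w := by exact_mod_cast hw
  have hv0 : (1 : ℝ) ≤ v := by
    exact_mod_cast (Nat.one_le_pow 22 w (by omega)).trans hwv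
  have hs : √L * √L = L := mul_self_sqrt hL0.le
  have hvL : (v : ℝ) ^ 2 ≤ L := by nlinarith
  have hLv : L ≤ 4 * (v : ℝ) ^ 2 := by nlinarith [sqrt_nonneg L]
  obtain ⟨r, M, r1, r2, r3, r4, r5, r6⟩ := par3 hw hw1 hvL hwv hαβ hα hβ
  have hH2 : ((M * w ^ 6 * (w ^ 10 * v ^ 2 * r) : ℕ) : ℝ) ≤ (n : ℝ) ^ 4 := by
    calc _ ≤ ((v ^ 4 : ℕ) : ℝ) := Nat.cast_le.2 r6
      _ = ((v : ℝ) ^ 2) ^ 2 := by
        push_cast
        ring
      _ ≤ (n : ℝ) ^ 2 := pow_le_pow_left₀ (by positivity) (hvL.trans hLn) 2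
      _ ≤ _ := pow_le_pow_right₀ hn1 (by norm_num)
  have p3 : (n : ℝ) ^ 3 ≤ (n : ℝ) ^ 4 := pow_le_pow_right₀ hn1 (by norm_num)
  have p2 : (n : ℝ) ^ 2 ≤ (n : ℝ) ^ 4 := pow_le_pow_right₀ hn1 (by norm_num)
  have p1 : (n : ℝ) ≤ (n : ℝ) ^ 4 := le_self_pow₀ hn1 (by norm_num)
  have p4 : 0 < (n : ℝ) ^ 4 := by positivity
  by_contra hc
  have key := hC L v w r M (5 * n ^ 4 + 10 * n ^ 3 + 10 * n ^ 2 + 5 * n) ((n : ℤ) ^ 5) hw r1 hvL
    hCw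
    (by
      rw [hexp]
      push_cast
      exact le_self_pow₀ hn1 (by norm_num))
    (by
      rw [show 4 * L = (4 : ℕ) * L by norm_num, exp_nat_mul, hexp]
      push_cast
      nlinarith [pow_pos (show (0 : ℝ) < n by linarith) 3, sq_nonneg (n : ℝ)])
    r2 r3 (A.image fun p : ℕ => (p : ℤ))
    (fun x hx => by
      obtain ⟨p, hp, rfl⟩ := mem_image.1 hx
      obtain ⟨-, h1, h2⟩ := hA p hp
      have h3 : (n : ℤ) ^ 5 < p := by exact_mod_cast h1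
      have h4 : (p : ℤ) < ((n : ℤ) + 1) ^ 5 := by exact_mod_cast h2
      refine mem_Ioc.2 ⟨h3, ?_⟩
      push_cast
      have h5 : ((n : ℤ) + 1) ^ 5 =
        (n : ℤ) ^ 5 + (5 * n ^ 4 + 10 * n ^ 3 + 10 * n ^ 2 + 5 * n) + 1 := by ring
      omega)
    (fun x hx => by
      obtain ⟨p, hp, rfl⟩ := mem_image.1 hx
      exact Nat.prime_iff_prime_int.1 (hA p hp).1)
    (fun p a b ha hab hg hb h0 h1 h2 h3 => by
      obtain ⟨p, hp, rfl⟩ := mem_image.1 h0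
      lift a to ℕ using ha.le
      lift b to ℕ using (ha.trans hab).le
      have hi : ∀ x : ℕ, (x : ℤ) ∈ (A.image fun p : ℕ => (p : ℤ)) → x ∈ A := fun x hx => by
        obtain ⟨y, hy, hxy⟩ := mem_image.1 hx
        rwa [← Nat.cast_injective hxy]
      exact hc ⟨p, a, b, by exact_mod_cast ha, by exact_mod_cast hab,
        (Nat.cast_le.2 (Nat.cast_le.1 hg)).trans r4, (Nat.cast_le.2 (Nat.cast_le.1 hb)).trans r5,
        hp, hi _ (by exact_mod_cast h1), hi _ (by exact_mod_cast h2),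
        hi _ (by exact_mod_cast h3)⟩)
  rw [card_image_of_injective _ Nat.cast_injective] at key
  generalize M * w ^ 6 * (w ^ 10 * v ^ 2 * r) = H at key hH2
  have k1 : (A.card : ℝ) * ((v : ℝ) ^ 2 * (w : ℝ) ^ 2) ≤
      4 * ((5 * (n : ℝ) ^ 4 + 10 * (n : ℝ) ^ 3 + 10 * (n : ℝ) ^ 2 + 5 * n) + (H : ℝ)) := by
    exact_mod_cast key
  rw [div_le_iff₀ (by positivity), mul_comm W] at hcard
  have k2 : L * W ≤ 4 * (v : ℝ) ^ 2 * (2 * w) :=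
    mul_le_mul hLv (by linarith) (by positivity) (by positivity)
  have k3 : (n : ℝ) ^ 4 * w ≤ A.card * (4 * (v : ℝ) ^ 2 * (2 * w)) * w := by
    gcongr
    exact hcard.trans (by gcongr)
  nlinarith

end Pool.Agent.Lib.MP_c03ca8_nt.N
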