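import Pool.Agent.Lib.MP_c03ca8_nt.N2.Up
import Pool.Agent.Lib.MP_c03ca8_nt.N.Fin

/-! Few starting points for small boxes. -/

open Finset Real

namespace Pool.Agent.Lib.MP_c03ca8_nt.N

theorem fin4 : ∃ C : ℝ, 1 ≤ C ∧ ∀ (n : ℕ) (W α β : ℝ), 16 ≤ log n → C * log (log n) ≤ W →
    W ^ 50 ≤ log n → (α * W ^ 50 ≤ log n ∨ α * β * W ^ 50 ≤ log n ^ 3) →
    ∀ B : Finset ℕ, (∀ p ∈ B, n ^ 5 < p ∧ p < (n + 1) ^ 5 ∧
      ∃ a b : ℕ, 0 < a ∧ a < b ∧ (a : ℝ) ≤ α ∧ (b : ℝ) ≤ β ∧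
        p.Prime ∧ (p + a).Prime ∧ (p + b).Prime ∧ (p + a + b).Prime) →
      (B.card : ℝ) ≤ (n : ℝ) ^ 4 / (W * log n) := by
  obtain ⟨C, hC1, hC⟩ := core4a
  obtain ⟨D, hD1, hD⟩ := core4b
  refine ⟨C + D + 2049, by linarith, fun n W α β h1 hW hW50 hor B hB => ?_⟩
  obtain ⟨-, h3, W1⟩ := floor_w (by linarith : 1 ≤ C + D) h1 hW
  have hn1 : 1 ≤ n := Nat.pos_of_ne_zero fun e => by
    rw [e, Nat.cast_zero, log_zero] at h1
    linarith
  have hn0 : (0 : ℝ) < n := by exact_mod_cast hn1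
  obtain ⟨L, hL⟩ : ∃ L, L = log n := ⟨_, rfl⟩
  have e1 : exp L = n := hL ▸ exp_log hn0
  rw [← hL] at h1 h3 hor hW50 ⊢
  have L0 : 0 < L := by linarith
  have W0 : 0 < W := by linarith
  have W2 : 1 ≤ W := by linarith
  have lL : 0 ≤ log L := log_nonneg (by linarith)
  rcases B.eq_empty_or_nonempty with rfl | ⟨p₀, hp₀⟩
  · rw [card_empty, Nat.cast_zero]
    positivity
  obtain ⟨α1, β2⟩ : 1 ≤ α ∧ 2 ≤ β := by
    obtain ⟨-, -, a, b, a1, a2, a3, a4, -⟩ := hB p₀ hp₀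
    exact ⟨le_trans (by exact_mod_cast a1) a3, le_trans (by exact_mod_cast (by omega : 2 ≤ b)) a4⟩
  have hw : (⌊W⌋₊ : ℝ) ≤ W := Nat.floor_le W0.le
  have ha : (⌊α⌋₊ : ℝ) ≤ α := Nat.floor_le (by linarith)
  have hb : (⌊β⌋₊ : ℝ) ≤ β := Nat.floor_le (by linarith)
  have fa : ∀ a : ℕ, (a : ℝ) ≤ α → a ≤ ⌊α⌋₊ := fun a h => Nat.le_floor h
  have fb : ∀ b : ℕ, (b : ℝ) ≤ β → b ≤ ⌊β⌋₊ := fun b h => Nat.le_floor h
  generalize ⌊W⌋₊ = w at h3 hw
  generalize ⌊α⌋₊ = a0 at ha fa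
  generalize ⌊β⌋₊ = b0 at hb fb
  have hw2 : (w : ℝ) ^ 2 ≤ W ^ 2 := pow_le_pow_left₀ (by positivity) hw 2
  have hw8 : 8 * (w : ℝ) ^ 2 ≤ L := by
    have q1 : W ^ 3 ≤ W ^ 50 := pow_le_pow_right₀ W2 (by norm_num)
    have q2 : 8 * W ^ 2 ≤ W * W ^ 2 := mul_le_mul_of_nonneg_right (by linarith) (by positivity)
    have q3 : W * W ^ 2 = W ^ 3 := by ring
    linarith
  have x1 : exp L ≤ (((n : ℤ) ^ 5 : ℤ) : ℝ) := by
    rw [e1]
    exact_mod_cast Nat.le_self_pow (by norm_num) n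
  have x2 : exp (4 * L) ≤ ((31 * n ^ 4 : ℕ) : ℝ) := by
    rw [show 4 * L = ((4 : ℕ) : ℝ) * L by norm_num, exp_nat_mul, e1]
    push_cast
    linarith [pow_pos hn0 4]
  have x3 : (B.image fun p : ℕ => (p : ℤ)) ⊆
      Ioc ((n : ℤ) ^ 5) ((n : ℤ) ^ 5 + ((31 * n ^ 4 : ℕ) : ℤ)) := fun x hx => by
    obtain ⟨p, hp, rfl⟩ := mem_image.1 hx
    obtain ⟨a1, a2, -⟩ := hB p hp
    have a3 : (n + 1) ^ 5 ≤ n ^ 5 + 31 * n ^ 4 := by
      have c3 : n ^ 3 ≤ n ^ 4 := Nat.pow_le_pow_right hn1 (by norm_num)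
      have c2 : n ^ 2 ≤ n ^ 4 := Nat.pow_le_pow_right hn1 (by norm_num)
      have c1 : n ≤ n ^ 4 := Nat.le_self_pow (by norm_num) n
      have c0 : (n + 1) ^ 5 = n ^ 5 + 5 * n ^ 4 + 10 * n ^ 3 + 10 * n ^ 2 + 5 * n + 1 := by ring
      omega
    exact mem_Ioc.2 ⟨by exact_mod_cast a1, by exact_mod_cast a2.le.trans a3⟩
  have x4 : ∀ x ∈ B.image fun p : ℕ => (p : ℤ), ∃ a b : ℤ, 0 < a ∧ a < b ∧ a ≤ a0 ∧ b ≤ b0 ∧
      Prime x ∧ Prime (x + a) ∧ Prime (x + b) ∧ Prime (x + a + b) := fun x hx => by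
    obtain ⟨p, hp, rfl⟩ := mem_image.1 hx
    obtain ⟨-, -, a, b, a1, a2, a3, a3', a4, a5, a6, a7⟩ := hB p hp
    exact ⟨a, b, by exact_mod_cast a1, by exact_mod_cast a2, by exact_mod_cast fa a a3,
      by exact_mod_cast fb b a3', Nat.prime_iff_prime_int.1 a4,
      by exact_mod_cast Nat.prime_iff_prime_int.1 a5,
      by exact_mod_cast Nat.prime_iff_prime_int.1 a6,
      by exact_mod_cast Nat.prime_iff_prime_int.1 a7⟩
  have d1 : 0 ≤ C * log L := by positivity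
  have d2 : 0 ≤ D * log L := by positivity
  rw [add_mul] at h3
  rw [mul_comm W, le_div_iff₀ (by positivity)]
  by_cases hc : α * W ^ 6 ≤ L
  · have q1 : α ≤ L := (le_mul_of_one_le_right (by linarith) (one_le_pow₀ W2)).trans hc
    have h4 := hC L w a0 (31 * n ^ 4) ((n : ℤ) ^ 5) (by nlinarith) (by linarith) (by linarith)
      (by linarith [sq_nonneg (w : ℝ)]) x1 x2 _ x3 fun x hx => by
        obtain ⟨a, b, a1, -, a3, -, a5, a6, -⟩ := x4 x hx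
        exact ⟨a, a1, a3, a5, a6⟩
    rw [card_image_of_injective _ Nat.cast_injective] at h4
    push_cast at h4
    have h5 : (a0 : ℝ) * (3 * (31 * n ^ 4) * (4 * (w : ℝ) ^ 2 / L) ^ 2) ≤
        α * (3 * (31 * n ^ 4) * (4 * W ^ 2 / L) ^ 2) := by gcongr
    refine (mul_le_mul_of_nonneg_right (h4.trans h5) (by positivity)).trans ?_
    have h6 : α * (3 * (31 * n ^ 4) * (4 * W ^ 2 / L) ^ 2) * (L * W) =
        n ^ 4 * (1488 * (α * W ^ 5) / L) := by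
      field_simp
      ring
    rw [h6]
    refine mul_le_of_le_one_right (by positivity) ((div_le_one L0).2 ?_)
    refine (mul_le_mul_of_nonneg_right (by linarith : 1488 ≤ W) (by positivity)).trans
      (le_trans (le_of_eq ?_) hc)
    ring
  · rw [not_le] at hc
    have q1 : α * W ^ 6 ≤ α * W ^ 50 :=
      mul_le_mul_of_nonneg_left (pow_le_pow_right₀ W2 (by norm_num)) (by linarith)
    have q2 : α * β * W ^ 50 ≤ L ^ 3 := hor.resolve_left (by linarith)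
    have q3 : β * W ^ 44 ≤ L ^ 2 := by
      refine le_of_mul_le_mul_left (a := L) ?_ L0
      calc L * (β * W ^ 44) ≤ α * W ^ 6 * (β * W ^ 44) :=
            mul_le_mul_of_nonneg_right hc.le (by positivity)
        _ = α * β * W ^ 50 := by ring
        _ ≤ L ^ 3 := q2
        _ = L * L ^ 2 := by ring
    have q4 : β * 3 ≤ β * W ^ 44 := mul_le_mul_of_nonneg_left
      ((by linarith : 3 ≤ W).trans (le_self_pow₀ W2 (by norm_num))) (by linarith)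
    have h4 := hD L w a0 b0 (31 * n ^ 4) ((n : ℤ) ^ 5) (by linarith) (by linarith) (by linarith)
      hw8 x1 x2 _ x3 x4
    rw [card_image_of_injective _ Nat.cast_injective] at h4
    push_cast at h4
    have h5 : (a0 : ℝ) * b0 * (3 * (31 * n ^ 4) * (8 * (w : ℝ) ^ 2 / L) ^ 4) ≤
        α * β * (3 * (31 * n ^ 4) * (8 * W ^ 2 / L) ^ 4) := by gcongr
    refine (mul_le_mul_of_nonneg_right (h4.trans h5) (by positivity)).trans ?_
    have h6 : α * β * (3 * (31 * n ^ 4) * (8 * W ^ 2 / L) ^ 4) * (L * W) =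
        n ^ 4 * (380928 * (α * β * W ^ 9) / L ^ 3) := by
      field_simp
      ring
    rw [h6]
    have p41 : 380928 ≤ W ^ 41 :=
      (by nlinarith : 380928 ≤ W ^ 2).trans (pow_le_pow_right₀ W2 (by norm_num))
    refine mul_le_of_le_one_right (by positivity) ((div_le_one (by positivity)).2 ?_)
    refine (mul_le_mul_of_nonneg_right p41 (by positivity)).trans (le_trans (le_of_eq ?_) q2)
    ring

end Pool.Agent.Lib.MP_c03ca8_nt.N
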