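import Pool.Agent.Lib.MP_c03ca8_nt.N2.Defs

/-! Few heavy pairs. -/

open Finset

namespace Pool.Agent.Lib.MP_c03ca8_nt.N

theorem hv2_pairs {g : ℕ} {A : Finset ℤ} (hA : WS2 g A) {H : Finset (ℤ × ℤ)}
    (hH : ∀ e ∈ H, e.2 ∈ A) (hU : ∀ e ∈ H, ∀ f ∈ H, e.1 - f.1 < g) :
    ((H ×ˢ H).filter fun p => p.1.1 = p.2.1).card ≤
      H.card + 2 * (H.image fun e => e.1 + e.2).card ^ 2 := by
  rw [← card_filter_add_card_filter_not (fun p : (ℤ × ℤ) × ℤ × ℤ => p.1 = p.2), sq,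
    ← card_product]
  refine add_le_add (card_le_card_of_injOn Prod.fst (fun p hp => ?_) fun p hp q hq e => ?_)
    (card_le_mul_card_image_of_maps_to (f := fun p => (p.1.1 + p.1.2, p.2.1 + p.2.2))
      (fun p hp => ?_) 2 fun d _ => ?_)
  · simp only [coe_filter, mem_filter, mem_product, Set.mem_ofPred_eq] at hp
    exact hp.1.1.1
  · simp only [coe_filter, Set.mem_ofPred_eq] at hp hq
    exact Prod.ext e (by rw [← hp.2, ← hq.2, e])
  · simp only [mem_filter, mem_product] at hp ⊢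
    exact ⟨mem_image_of_mem _ hp.1.1.1, mem_image_of_mem _ hp.1.1.2⟩
  by_cases hd : d.1 = d.2
  · rw [card_eq_zero.2 (filter_eq_empty_iff.2 fun p hp e => ?_)]
    · exact Nat.zero_le _
    simp only [mem_filter, mem_product, Prod.ext_iff] at hp e
    omega
  rw [← card_image_of_injOn (f := fun p : (ℤ × ℤ) × ℤ × ℤ => (p.1.2, p.2.2))
    fun p hp q hq e => ?_]
  · refine ws2_two hA (sub_ne_zero.2 hd) (fun e he => ?_) fun e he f hf => ?_
    · obtain ⟨p, hp, rfl⟩ := mem_image.1 he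
      simp only [mem_filter, mem_product, Prod.ext_iff] at hp
      exact ⟨hH p.1 hp.1.1.1.1, hH p.2 hp.1.1.1.2, by omega⟩
    · obtain ⟨p, hp, rfl⟩ := mem_image.1 he
      obtain ⟨q, hq, rfl⟩ := mem_image.1 hf
      simp only [mem_filter, mem_product, Prod.ext_iff] at hp hq
      have := hU _ hq.1.1.1.1 _ hp.1.1.1.1
      omega
  · simp only [coe_filter, mem_filter, mem_product, Set.mem_ofPred_eq, Prod.ext_iff] at hp hq e ⊢
    omega

/-- One block. Twin of `sid_pairs` and `heavy` in N/Sid.lean with sums in place of differences;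
two different sums share at most two points of `U` by `ws2_two`. -/
theorem heavy2 {g : ℕ} {A U : Finset ℤ} (hA : WS2 g A) (hU : ∀ u ∈ U, ∀ u' ∈ U, u - u' < g)
    {Λ : ℝ} (hΛ : 0 < Λ) (h : 4 * (U.card : ℝ) ≤ Λ ^ 2) :
    ((U ×ˢ A).filter fun e : ℤ × ℤ =>
      Λ < (((U ×ˢ A).filter fun e' : ℤ × ℤ => e'.1 + e'.2 = e.1 + e.2).card : ℝ)).card ≤
      2 * U.card := by
  generalize hH : ((U ×ˢ A).filter fun e : ℤ × ℤ =>
    Λ < (((U ×ˢ A).filter fun e' : ℤ × ℤ => e'.1 + e'.2 = e.1 + e.2).card : ℝ)) = H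
  have m : ∀ e ∈ H, (e.1 ∈ U ∧ e.2 ∈ A) ∧
      Λ < (((U ×ˢ A).filter fun e' : ℤ × ℤ => e'.1 + e'.2 = e.1 + e.2).card : ℝ) := fun e he => by
    rwa [← hH, mem_filter, mem_product] at he
  have h1 : ((H.image fun e => e.1 + e.2).card : ℝ) * Λ ≤ H.card := by
    rw [card_eq_sum_card_image (fun e => e.1 + e.2) H, Nat.cast_sum, ← nsmul_eq_mul]
    refine card_nsmul_le_sum _ _ _ fun d hd => ?_
    obtain ⟨e, he, rfl⟩ := mem_image.1 hd
    refine (m e he).2.le.trans (Nat.cast_le.2 (card_le_card fun z hz => ?_))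
    rw [mem_filter] at hz ⊢
    rw [← hH, mem_filter, hz.2]
    exact ⟨⟨hz.1, (m e he).2⟩, rfl⟩
  have h2 : H.card ^ 2 ≤ U.card * ((H ×ˢ H).filter fun p => p.1.1 = p.2.1).card := by
    rw [card_eq_sum_card_fiberwise (f := Prod.fst) (t := U) fun e he => (m e he).1.1,
      card_eq_sum_card_fiberwise (s := (H ×ˢ H).filter _) (f := fun p => p.1.1) (t := U)
        fun p hp => (m _ (mem_product.1 (mem_filter.1 hp).1).1).1.1]
    refine sq_sum_le_card_mul_sum_sq.trans (Nat.mul_le_mul_left _ (sum_le_sum fun u _ => ?_))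
    rw [sq, ← card_product]
    refine card_le_card fun p hp => ?_
    simp only [mem_filter, mem_product] at hp ⊢
    exact ⟨⟨⟨hp.1.1, hp.2.1⟩, hp.1.2.trans hp.2.2.symm⟩, hp.1.2⟩
  have h3 := h2.trans (Nat.mul_le_mul_left _ (hv2_pairs hA (fun e he => (m e he).1.2)
    fun e he f hf => hU _ (m e he).1.1 _ (m f hf).1.1))
  generalize (H.image fun e => e.1 + e.2).card = D at h1 h3
  have h4 : (H.card : ℝ) ^ 2 ≤ U.card * (H.card + 2 * D ^ 2) := by exact_mod_cast h3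
  have h5 : ((D : ℝ) * Λ) ^ 2 ≤ H.card ^ 2 := by gcongr
  have h6 : 4 * (U.card : ℝ) * D ^ 2 ≤ Λ ^ 2 * D ^ 2 := by gcongr
  by_contra hc
  have h7 : 2 * (U.card : ℝ) < H.card := by exact_mod_cast not_le.1 hc
  have h8 : (0 : ℝ) ≤ U.card := Nat.cast_nonneg _
  nlinarith

/-- All blocks: sum `heavy2` over the blocks of `U`. -/
theorem heavyAll {g : ℕ} (hg : 0 < g) {A U : Finset ℤ} (hA : WS2 g A) {Λ : ℝ} (hΛ : 0 < Λ)
    (h : ∀ j, 4 * ((blk g U j).card : ℝ) ≤ Λ ^ 2) :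
    ((U ×ˢ A).filter fun e : ℤ × ℤ => Λ < (((blk g U (e.1 / g) ×ˢ A).filter
      fun e' : ℤ × ℤ => e'.1 + e'.2 = e.1 + e.2).card : ℝ)).card ≤ 2 * U.card := by
  rw [card_eq_sum_card_fiberwise (f := fun e : ℤ × ℤ => e.1 / (g : ℤ))
      (t := U.image fun x => x / (g : ℤ))
      (fun e he => mem_image_of_mem _ (mem_product.1 (mem_filter.1 he).1).1),
    card_eq_sum_card_image (fun x => x / (g : ℤ)) U, mul_sum]
  refine sum_le_sum fun j _ => le_trans (card_le_card fun e he => ?_)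
    (heavy2 (U := blk g U j) hA (fun u hu v hv => blk_near hg
      ((mem_filter.1 hu).2.trans (mem_filter.1 hv).2.symm)) hΛ (h j))
  obtain ⟨h1, h2⟩ := mem_filter.1 he
  obtain ⟨h3, h4⟩ := mem_filter.1 h1
  rw [h2] at h4
  exact mem_filter.2 ⟨mem_product.2
    ⟨mem_filter.2 ⟨(mem_product.1 h3).1, h2⟩, (mem_product.1 h3).2⟩, h4⟩

end Pool.Agent.Lib.MP_c03ca8_nt.N
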