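import Pool.Agent.Lib.MP_c03ca8_nt.N2.Defs

/-! A random subset keeps a regular share of the coincidences. -/

open Finset

namespace Pool.Agent.Lib.MP_c03ca8_nt.N

theorem samp_row {Q : Finset (ℤ × ℤ × ℤ)} {Δ Λ₁ Λ₂ q : ℝ} (h0 : ∀ u, (dg Q u : ℝ) ≤ Δ)
    (h1 : ∀ u a, ((Q.filter fun e => e.1 = u ∧ e.2.1 = a).card : ℝ) ≤ Λ₁)
    (h2 : ∀ u a, ((Q.filter fun e => e.1 = u ∧ e.2.2 = a).card : ℝ) ≤ Λ₂) (hq : 0 ≤ q)
    (u a a' : ℤ) :
    ∑ f ∈ Q.filter (fun f => f.1 = u),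
      (q ^ 2 + q * (if f.2.1 = a ∨ f.2.1 = a' then 1 else 0) +
        q * (if f.2.2 = a ∨ f.2.2 = a' then 1 else 0) +
        if (f.2.1 = a ∨ f.2.1 = a') ∧ (f.2.2 = a ∨ f.2.2 = a') then 1 else 0) ≤
      q ^ 2 * Δ + (2 * q * (Λ₁ + Λ₂) + 4) := by
  have c2 : (((Q.filter fun f => f.1 = u).filter fun f => f.2.1 = a ∨ f.2.1 = a').card : ℝ) ≤
      Λ₁ + Λ₁ := by
    rw [filter_or]
    refine (Nat.cast_le.mpr (card_union_le _ _)).trans ?_
    rw [Nat.cast_add, filter_filter, filter_filter]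
    exact add_le_add (h1 u _) (h1 u _)
  have b3 : (((Q.filter fun f => f.1 = u).filter fun f => f.2.2 = a ∨ f.2.2 = a').card : ℝ) ≤
      Λ₂ + Λ₂ := by
    rw [filter_or]
    refine (Nat.cast_le.mpr (card_union_le _ _)).trans ?_
    rw [Nat.cast_add, filter_filter, filter_filter]
    exact add_le_add (h2 u _) (h2 u _)
  have b4 : ((Q.filter fun f => f.1 = u).filter fun f =>
      (f.2.1 = a ∨ f.2.1 = a') ∧ (f.2.2 = a ∨ f.2.2 = a')).card ≤ 4 := by
    refine (card_le_card (t := {(u, a, a), (u, a, a'), (u, a', a), (u, a', a')}) ?_).trans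
      card_le_four
    rintro ⟨x, y, z⟩ hf
    simp only [mem_filter] at hf
    obtain ⟨⟨-, rfl⟩, rfl | rfl, rfl | rfl⟩ := hf <;> simp
  have c1 : ((Q.filter fun f => f.1 = u).card : ℝ) ≤ Δ := h0 u
  have c4 := (Nat.cast_le (α := ℝ)).mpr b4
  simp only [sum_add_distrib, ← mul_sum, sum_boole, sum_const, nsmul_eq_mul]
  push_cast at c4
  have d1 := mul_le_mul_of_nonneg_left c1 (sq_nonneg q)
  have d2 := mul_le_mul_of_nonneg_left c2 hq
  have d3 := mul_le_mul_of_nonneg_left b3 hq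
  nlinarith

theorem sample2 {A U : Finset ℤ} {Q : Finset (ℤ × ℤ × ℤ)} {Δ Λ₁ Λ₂ q D : ℝ} (hQ : Sym A U Q)
    (h0 : ∀ u, (dg Q u : ℝ) ≤ Δ)
    (h1 : ∀ u a, ((Q.filter fun e => e.1 = u ∧ e.2.1 = a).card : ℝ) ≤ Λ₁)
    (h2 : ∀ u a, ((Q.filter fun e => e.1 = u ∧ e.2.2 = a).card : ℝ) ≤ Λ₂)
    (h3 : Δ * U.card ≤ 4 * Q.card) (hq : 0 < q) (hq1 : q ≤ 1)
    (hD : D = q ^ 2 * Δ) (hD2 : 2 * q * (Λ₁ + Λ₂) + 4 ≤ 3 * D) (hU : U.Nonempty) :
    ∃ S ⊆ A, (S.card : ℝ) ≤ 32 * q * A.card ∧ ∃ Q' ⊆ Q, Sym S U Q' ∧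
      D * U.card / 16 ≤ Q'.card - (∑ u ∈ U, (dg Q' u : ℝ) ^ 2) / (8 * D) := by
  classical
  have hΛ₁ : 0 ≤ Λ₁ := (Nat.cast_nonneg _).trans (h1 0 0)
  have hΛ₂ : 0 ≤ Λ₂ := (Nat.cast_nonneg _).trans (h2 0 0)
  have hD0 : 0 < D := by
    have : 0 ≤ 2 * q * (Λ₁ + Λ₂) := by positivity
    linarith
  have hR : (0 : ℝ) < U.card := by exact_mod_cast hU.card_pos
  have hm : (0 : ℝ) < A.card := by
    have hΔ : 0 < Δ := (mul_pos_iff_of_pos_left (pow_pos hq 2)).mp (hD ▸ hD0)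
    have h4 : (0 : ℝ) < Q.card := by
      have := mul_pos hΔ hR
      linarith
    obtain ⟨e, he⟩ := card_pos.mp (Nat.cast_pos.mp h4)
    exact_mod_cast card_pos.mpr ⟨_, (hQ e he).2.1⟩
  set QS : Finset ℤ → Finset (ℤ × ℤ × ℤ) := fun S => Q.filter fun e => e.2.1 ∈ S ∧ e.2.2 ∈ S
    with hQS
  have hw : ∀ S, 0 ≤ wt A q S := fun S =>
    mul_nonneg (by positivity) (pow_nonneg (by linarith) _)
  have eX : ∀ S, ((QS S).card : ℝ) = ∑ e ∈ Q, ind S e := fun S => by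
    simp only [hQS, ind, sum_boole]
  have eD : ∀ S u, (dg (QS S) u : ℝ) = ∑ e ∈ Q.filter (fun e => e.1 = u), ind S e := fun S u => by
    simp only [hQS, dg, ind, sum_boole]
    rw [filter_comm]
  have hfib : ∀ P : Finset (ℤ × ℤ × ℤ), P ⊆ Q → (P.card : ℝ) = ∑ u ∈ U, (dg P u : ℝ) := by
    intro P hP
    have := card_eq_sum_card_fiberwise (s := P) (t := U) (f := fun e => e.1)
      fun e he => (hQ e (hP he)).1
    exact_mod_cast this
  have EX : ∑ S ∈ A.powerset, wt A q S * (QS S).card = q ^ 2 * Q.card := by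
    simp only [eX, mul_sum]
    rw [sum_comm, sum_congr rfl fun e he =>
      av_ind q (hQ e he).2.1 (hQ e he).2.2.1 (hQ e he).2.2.2.1]
    simp [mul_comm]
  have EY : ∑ S ∈ A.powerset, wt A q S * ∑ u ∈ U, (dg (QS S) u : ℝ) ^ 2 ≤
      4 * D * (q ^ 2 * Q.card) := by
    have e3 : ∀ S u, (dg (QS S) u : ℝ) ^ 2 = ∑ e ∈ Q.filter (fun e => e.1 = u),
        ∑ f ∈ Q.filter (fun e => e.1 = u), ind S e * ind S f := fun S u => by
      rw [eD, sq, sum_mul_sum]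
    simp only [e3, mul_sum]
    rw [sum_comm, hfib Q Subset.rfl, mul_sum, mul_sum]
    refine sum_le_sum fun u _ => ?_
    rw [sum_comm]
    calc _ ≤ ∑ e ∈ Q.filter (fun e => e.1 = u), q ^ 2 * (4 * D) := by
          refine sum_le_sum fun e he => ?_
          have he' := hQ e (mem_filter.mp he).1
          rw [sum_comm]
          refine (sum_le_sum fun f hf => av_pair hq.le he'.2.1 he'.2.2.1 he'.2.2.2.1
            (hQ f (mem_filter.mp hf).1).2.1 (hQ f (mem_filter.mp hf).1).2.2.1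
            (hQ f (mem_filter.mp hf).1).2.2.2.1).trans ?_
          rw [← mul_sum]
          refine mul_le_mul_of_nonneg_left ?_ (sq_nonneg q)
          refine (samp_row h0 h1 h2 hq.le u e.2.1 e.2.2).trans ?_
          linarith
      _ = _ := by rw [sum_const, nsmul_eq_mul, dg]; ring
  have hX : D * U.card ≤ 4 * (q ^ 2 * Q.card) := by
    have := mul_le_mul_of_nonneg_left h3 (sq_nonneg q)
    rw [hD]
    linarith
  set μ : ℝ := D * U.card / 16 / (q * A.card) with hμ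
  have hμ0 : 0 < μ := by positivity
  have hμ1 : μ * (q * A.card) = D * U.card / 16 := div_mul_cancel₀ _ (by positivity)
  obtain ⟨S, hS, hle⟩ : ∃ S ∈ A.powerset, D * U.card / 16 ≤
      (QS S).card - (∑ u ∈ U, (dg (QS S) u : ℝ) ^ 2) / (8 * D) - μ * S.card := by
    by_contra hc
    push Not at hc
    obtain ⟨S0, hS0, hpos⟩ : ∃ S ∈ A.powerset, 0 < wt A q S := by
      by_contra h0
      push Not at h0
      have := sum_nonpos h0
      rw [av_one] at this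
      linarith
    have hlt := sum_lt_sum (s := A.powerset)
      (fun S hS => mul_le_mul_of_nonneg_left (hc S hS).le (hw S))
      ⟨S0, hS0, mul_lt_mul_of_pos_left (hc S0 hS0) hpos⟩
    have e2 : ∑ S ∈ A.powerset, wt A q S * (((QS S).card : ℝ) -
        (∑ u ∈ U, (dg (QS S) u : ℝ) ^ 2) / (8 * D) - μ * S.card) =
        ∑ S ∈ A.powerset, wt A q S * (QS S).card -
          (∑ S ∈ A.powerset, wt A q S * ∑ u ∈ U, (dg (QS S) u : ℝ) ^ 2) / (8 * D) -
          μ * ∑ S ∈ A.powerset, wt A q S * S.card := by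
      rw [sum_div, mul_sum, ← sum_sub_distrib, ← sum_sub_distrib]
      exact sum_congr rfl fun S _ => by ring
    rw [e2, ← sum_mul, av_one, EX, av_card, hμ1] at hlt
    have : (∑ S ∈ A.powerset, wt A q S * ∑ u ∈ U, (dg (QS S) u : ℝ) ^ 2) / (8 * D) ≤
        q ^ 2 * Q.card / 2 := by
      rw [div_le_iff₀ (by positivity)]
      linarith
    linarith
  have hup : ((QS S).card : ℝ) - (∑ u ∈ U, (dg (QS S) u : ℝ) ^ 2) / (8 * D) ≤ 2 * D * U.card := by
    rw [hfib (QS S) (filter_subset _ _), sum_div, ← sum_sub_distrib]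
    refine (sum_le_card_nsmul U _ (2 * D) fun u _ => ?_).trans (by rw [nsmul_eq_mul]; linarith)
    rw [sub_le_iff_le_add, ← sub_le_iff_le_add', le_div_iff₀ (by positivity)]
    nlinarith [sq_nonneg ((dg (QS S) u : ℝ) - 4 * D)]
  refine ⟨S, mem_powerset.mp hS, ?_, QS S, filter_subset _ _, fun e he => ?_, ?_⟩
  · refine le_of_mul_le_mul_left ?_ hμ0
    have : 0 < D * U.card := by positivity
    nlinarith
  · obtain ⟨he1, he2⟩ := mem_filter.mp he
    have := hQ e he1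
    exact ⟨this.1, he2.1, he2.2, this.2.2.2.1, mem_filter.mpr ⟨this.2.2.2.2, he2.2, he2.1⟩⟩
  · have : 0 ≤ μ * S.card := by positivity
    linarith

end Pool.Agent.Lib.MP_c03ca8_nt.N
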