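import Pool.Agent.Lib.MP_c03ca8_nt.N2.Edges
import Pool.Agent.Lib.MP_c03ca8_nt.N2.Samp
import Pool.Agent.Lib.MP_c03ca8_nt.N2.Kw

/-! One step of the container algorithm. -/

open Finset

namespace Pool.Agent.Lib.MP_c03ca8_nt.N

theorem phase2 {g k r M : ℕ} (hg : 0 < g) (hk : 32 ≤ k) (hkr : k ≤ r) (hP : g ≤ M * r ^ 3)
    {A U : Finset ℤ} (hA : WS2 g A) (hreg : Reg g (k * r) A) (hm : A.card = M * (k * r))
    (hcov : Cov g A U) (hb : ∀ j, 8 * M * (blk g U j).card ≤ k * U.card)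
    (hR : 64 * g ≤ k * r * U.card) :
    ∃ S ⊆ A, ∃ F ⊆ A, S.card ≤ 512 * (M * r) ∧ F.card ≤ 512 * (M * r) ∧
      (A \ S) ∩ U ⊆ nxt2 g (th2 g k r U) U S F ∧
      256 * (nxt2 g (th2 g k r U) U S F).card ≤ 255 * U.card := by
  obtain ⟨σ, hσ⟩ : ∃ σ, σ = k * r * U.card / (4 * g) := ⟨_, rfl⟩
  have hr1 : 0 < r := by omega
  have hg0 : 0 < 4 * g := by omega
  have hM : 0 < M := Nat.pos_of_ne_zero fun e => by
    rw [e, zero_mul] at hP
    omega
  have a1 : 4 * g * σ ≤ k * r * U.card := hσ ▸ Nat.mul_div_le _ _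
  have a2 : k * r * U.card < 4 * g * (σ + 1) := hσ ▸ Nat.lt_mul_div_succ _ hg0
  have a3 : 16 ≤ σ := hσ ▸ (Nat.le_div_iff_mul_le hg0).2 (by omega)
  have a4 : k * U.card ≤ M * (5 * r ^ 2 * σ) := by
    refine Nat.le_of_mul_le_mul_left ?_ hr1
    calc r * (k * U.card) = k * r * U.card := by ring
      _ ≤ g * (4 * (σ + 1)) := by linarith
      _ ≤ M * r ^ 3 * (5 * σ) := Nat.mul_le_mul hP (by omega)
      _ = _ := by ring
  have a5 : ∀ j, 8 * (blk g U j).card ≤ 5 * r ^ 2 * σ := fun j => by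
    refine Nat.le_of_mul_le_mul_left ?_ hM
    have := hb j
    linarith
  have hUne : U.Nonempty := by
    rw [← card_pos, Nat.pos_iff_ne_zero]
    intro e
    rw [e] at hR
    omega
  have b0 : (32 : ℝ) ≤ k := by exact_mod_cast hk
  have b1 : (k : ℝ) ≤ r := by exact_mod_cast hkr
  have b3 : (16 : ℝ) ≤ σ := by exact_mod_cast a3
  have b4 : (A.card : ℝ) = M * (k * r) := by exact_mod_cast hm
  have b5 : (k : ℝ) * U.card ≤ M * (5 * r ^ 2 * σ) := by exact_mod_cast a4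
  have hk0 : (0 : ℝ) < k := by linarith
  have hs : (0 : ℝ) < r := by linarith
  have hσ0 : (0 : ℝ) < σ := by linarith
  have hM0 : (0 : ℝ) < M := by exact_mod_cast hM
  have hMr : (0 : ℝ) < M * r := by positivity
  have hΛ : ∀ j, 4 * ((blk g U j).card : ℝ) ≤ ((σ : ℝ) * r / 2) ^ 2 := fun j => by
    have h1 : 8 * ((blk g U j).card : ℝ) ≤ 5 * r ^ 2 * σ := by exact_mod_cast a5 j
    have h2 : 16 * ((r : ℝ) ^ 2 * σ) ≤ σ * (r ^ 2 * σ) :=
      mul_le_mul_of_nonneg_right b3 (by positivity)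
    have h3 : (0 : ℝ) ≤ (r : ℝ) ^ 2 * σ := by positivity
    nlinarith
  have hD0 : 0 < (σ : ℝ) * r / k := by positivity
  obtain ⟨Q, q1, qL, q2, q3, q4, q5⟩ := edges2 hg hA hreg hcov a3 a1 (by positivity) hΛ
  obtain ⟨S, hS, s1, Q', sQ, s2, s3⟩ := sample2 (Δ := σ * (k * r)) (Λ₂ := σ) (q := 1 / k)
    (D := (σ : ℝ) * r / k) q1 (fun u => by exact_mod_cast q2 u) q3
    (fun u a => by exact_mod_cast q4 u a) (by exact_mod_cast q5)
    (by positivity) ((div_le_one hk0).2 (by linarith)) (by field_simp) (by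
      have h1 : 16 * (r : ℝ) ≤ σ * r := mul_le_mul_of_nonneg_right b3 hs.le
      have h2 : (σ : ℝ) * 32 ≤ σ * r := mul_le_mul_of_nonneg_left (b0.trans b1) hσ0.le
      have e1 : 2 * (1 / (k : ℝ)) * (σ * r / 2 + σ) + 4 = (σ * r + 2 * σ + 4 * k) / k := by
        field_simp
      rw [e1, ← mul_div_assoc]
      exact div_le_div_of_nonneg_right (by linarith) hk0.le) hUne
  have hth : th2 g k r U = (σ : ℝ) * r / k / 64 := by rw [th2, hσ]
  obtain ⟨F, hF, f1, f2⟩ := kw2 (U := U) hg hA hS (θ := (σ : ℝ) * r / k / 64) (by positivity)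
  rw [hth]
  refine ⟨S, hS, F, hF, ?_, ?_, f2,
    small2 hg (hA.mono hS) s2 (fun e he => qL e (sQ he)) hD0 s3 F⟩
  · have e1 : 32 * (1 / (k : ℝ)) * A.card = 32 * (M * r) := by
      rw [b4]
      field_simp
    have h1 : (S.card : ℝ) ≤ 512 * (M * r) := by linarith
    exact_mod_cast h1
  · have e1 : (σ : ℝ) * r / k / 64 * F.card = σ * r * F.card / (64 * k) := by field_simp
    rw [e1, div_le_iff₀ (by positivity)] at f1
    have h0 : (0 : ℝ) ≤ σ * r * (M * r) := by positivity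
    have h1 : (σ : ℝ) * r * F.card ≤ σ * r * (512 * (M * r)) := by nlinarith
    have h2 : (F.card : ℝ) ≤ 512 * (M * r) := le_of_mul_le_mul_left h1 (by positivity)
    exact_mod_cast h2

end Pool.Agent.Lib.MP_c03ca8_nt.N
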