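import Pool.Agent.Lib.MP_c03ca8_nt.N.Sv

/-! Upper bounds for pairs and for parallelograms in a box. -/

open Finset Real

namespace Pool.Agent.Lib.MP_c03ca8_nt.N

theorem core4a : ∃ C : ℝ, 1 ≤ C ∧ ∀ (L : ℝ) (w a0 Y : ℕ) (X : ℤ),
    (a0 : ℝ) + 2 ≤ L ^ 2 → 2 ≤ L → C * log L ≤ w → 4 * (w : ℝ) ^ 2 ≤ L → exp L ≤ X →
    exp (4 * L) ≤ Y → ∀ B ⊆ Ioc X (X + Y),
      (∀ p ∈ B, ∃ a : ℤ, 0 < a ∧ a ≤ a0 ∧ Prime p ∧ Prime (p + a)) →
      (B.card : ℝ) ≤ (a0 : ℝ) * (3 * Y * (4 * (w : ℝ) ^ 2 / L) ^ 2) := by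
  classical
  obtain ⟨C, hC1, hC⟩ := sieve2
  refine ⟨C, hC1, fun L w a0 Y X hH hL hw h8 hX hY B hB hp => ?_⟩
  set β : ℝ := 3 * Y * (4 * (w : ℝ) ^ 2 / L) ^ 2 with hβ
  set F : ℤ → Finset ℤ := fun e => B.filter fun p => Prime p ∧ Prime (p + e) with hF
  have hcov : B ⊆ (Icc (1 : ℤ) a0).biUnion F := by
    intro p hpB
    obtain ⟨a, ha, ha0, h0, h1⟩ := hp p hpB
    exact mem_biUnion.2 ⟨a, mem_Icc.2 ⟨ha, ha0⟩, mem_filter.2 ⟨hpB, h0, h1⟩⟩
  have hone : ∀ e ∈ Icc (1 : ℤ) a0, ((F e).card : ℝ) ≤ β := by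
    intro a he
    rw [mem_Icc] at he
    have hT2 : ({0, a} : Finset ℤ).card = 2 := card_pair (by omega)
    have key := hC L w (a0 + 2) Y {0, a} X ?_ (by omega) (by omega)
      (by push_cast; exact hH) hL hw (by rw [hT2]; push_cast; linarith) hY (F a)
      ((filter_subset _ _).trans hB) ?_
    · rw [hT2] at key
      have e4 : (2 * ((2 : ℕ) : ℝ) * (w : ℝ) ^ 2 / L) = 4 * (w : ℝ) ^ 2 / L := by
        push_cast; ring
      rw [e4] at key
      exact key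
    · intro h hh
      simp only [mem_insert, mem_singleton] at hh
      simp only [mem_Ico]
      push_cast
      omega
    · intro n hn h hh
      obtain ⟨hnB, h0, h1⟩ := mem_filter.1 hn
      have hnX : X < n := (mem_Ioc.1 (hB hnB)).1
      simp only [mem_insert, mem_singleton] at hh
      refine ⟨?_, ?_⟩
      · have h5 : X < n + h := by omega
        have h6 : (X : ℝ) < ((n + h : ℤ) : ℝ) := by exact_mod_cast h5
        linarith
      · rcases hh with rfl | rfl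
        · simpa using h0
        · exact h1
  have hΩc : ((Icc (1 : ℤ) a0).card : ℝ) = a0 := by simp
  calc (B.card : ℝ) ≤ (((Icc (1 : ℤ) a0).biUnion F).card : ℝ) := by
        exact_mod_cast card_le_card hcov
    _ ≤ ∑ e ∈ Icc (1 : ℤ) a0, ((F e).card : ℝ) := by exact_mod_cast card_biUnion_le
    _ ≤ (Icc (1 : ℤ) a0).card • β := sum_le_card_nsmul _ _ _ hone
    _ = (a0 : ℝ) * β := by rw [nsmul_eq_mul, hΩc]

theorem core4b : ∃ C : ℝ, 1 ≤ C ∧ ∀ (L : ℝ) (w a0 b0 Y : ℕ) (X : ℤ),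
    2 * (b0 : ℝ) + 2 ≤ L ^ 2 → 2 ≤ L → C * log L ≤ w → 8 * (w : ℝ) ^ 2 ≤ L → exp L ≤ X →
    exp (4 * L) ≤ Y → ∀ B ⊆ Ioc X (X + Y),
      (∀ p ∈ B, ∃ a b : ℤ, 0 < a ∧ a < b ∧ a ≤ a0 ∧ b ≤ b0 ∧ Prime p ∧ Prime (p + a) ∧
        Prime (p + b) ∧ Prime (p + a + b)) →
      (B.card : ℝ) ≤ (a0 : ℝ) * b0 * (3 * Y * (8 * (w : ℝ) ^ 2 / L) ^ 4) := by
  classical
  obtain ⟨C, hC1, hC⟩ := sieve2
  refine ⟨C, hC1, fun L w a0 b0 Y X hH hL hw h8 hX hY B hB hp => ?_⟩
  set β : ℝ := 3 * Y * (8 * (w : ℝ) ^ 2 / L) ^ 4 with hβ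
  have hβ0 : 0 ≤ β := by positivity
  set Ω : Finset (ℤ × ℤ) := Icc (1 : ℤ) a0 ×ˢ Icc (1 : ℤ) b0 with hΩ
  set F : ℤ × ℤ → Finset ℤ := fun e => B.filter fun p => e.1 < e.2 ∧ Prime p ∧
    Prime (p + e.1) ∧ Prime (p + e.2) ∧ Prime (p + e.1 + e.2) with hF
  have hcov : B ⊆ Ω.biUnion F := by
    intro p hpB
    obtain ⟨a, b, ha, hab, ha0, hb, h0, h1, h2, h3⟩ := hp p hpB
    refine mem_biUnion.2 ⟨(a, b), ?_, mem_filter.2 ⟨hpB, hab, h0, h1, h2, h3⟩⟩
    simp only [hΩ, mem_product, mem_Icc]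
    omega
  have hone : ∀ e ∈ Ω, ((F e).card : ℝ) ≤ β := by
    rintro ⟨a, b⟩ he
    simp only [hΩ, mem_product, mem_Icc] at he
    by_cases hab : a < b
    swap
    · have : F (a, b) = ∅ := filter_eq_empty_iff.2 fun p _ h => hab h.1
      rw [this]
      simpa using hβ0
    have hT4 : ({0, a, b, a + b} : Finset ℤ).card = 4 := by
      rw [card_insert_of_notMem, card_insert_of_notMem, card_insert_of_notMem, card_singleton]
      · simp only [mem_singleton]; omega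
      · simp only [mem_insert, mem_singleton]; omega
      · simp only [mem_insert, mem_singleton]; omega
    have key := hC L w (2 * b0 + 2) Y {0, a, b, a + b} X ?_ (by omega) (by omega)
      (by push_cast; exact hH) hL hw (by rw [hT4]; push_cast; linarith) hY (F (a, b))
      ((filter_subset _ _).trans hB) ?_
    · rw [hT4] at key
      have e8 : (2 * ((4 : ℕ) : ℝ) * (w : ℝ) ^ 2 / L) = 8 * (w : ℝ) ^ 2 / L := by
        push_cast; ring
      rw [e8] at key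
      exact key
    · intro h hh
      simp only [mem_insert, mem_singleton] at hh
      simp only [mem_Ico]
      push_cast
      omega
    · intro n hn h hh
      obtain ⟨hnB, -, h0, h1, h2, h3⟩ := mem_filter.1 hn
      have hnX : X < n := (mem_Ioc.1 (hB hnB)).1
      simp only [mem_insert, mem_singleton] at hh
      refine ⟨?_, ?_⟩
      · have h5 : X < n + h := by omega
        have h6 : (X : ℝ) < ((n + h : ℤ) : ℝ) := by exact_mod_cast h5
        linarith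
      · rcases hh with rfl | rfl | rfl | rfl
        · simpa using h0
        · exact h1
        · exact h2
        · simpa [add_assoc] using h3
  have hΩc : (Ω.card : ℝ) = (a0 : ℝ) * b0 := by
    simp [hΩ]
  calc (B.card : ℝ) ≤ ((Ω.biUnion F).card : ℝ) := by exact_mod_cast card_le_card hcov
    _ ≤ ∑ e ∈ Ω, ((F e).card : ℝ) := by exact_mod_cast card_biUnion_le
    _ ≤ Ω.card • β := sum_le_card_nsmul _ _ _ hone
    _ = (a0 : ℝ) * b0 * β := by rw [nsmul_eq_mul, hΩc]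

end Pool.Agent.Lib.MP_c03ca8_nt.N
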